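import Mathlib

/-!
# The positive square energy of graphs with many edges

For every graph `G` with `n` vertices, `m` edges and all eigenvalues at most `Λ`, and every `L ≥ 0`,
`2 m L (2 L² + 7 L Λ + 8 Λ²) - n L⁴ Λ ≤ 4 (L + Λ)³ s⁺(G)`. So `s⁺(G) > n` if the average degree is
at least `5/8 √Λ + 6/5`, `Λ ≥ 3`; in particular for `Λ` the maximum degree, and for `Λ = √n`.
-/

set_option autoImplicit false

open Finset

namespace Pool.Agent.Results.MP_3b2d6a_co.ManyEdges

theorem isHermitian_adj {V : Type*} (G : SimpleGraph V) [DecidableRel G.Adj] :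
    (G.adjMatrix ℝ).IsHermitian := by
  rw [Matrix.IsHermitian, Matrix.conjTranspose_eq_transpose_of_trivial]
  exact G.isSymm_adjMatrix

variable {V : Type*} [Fintype V] [DecidableEq V]

/-- The eigenvalues of the adjacency matrix of `G` (with multiplicities). -/
noncomputable def eig (G : SimpleGraph V) [DecidableRel G.Adj] (i : V) : ℝ :=
  (isHermitian_adj G).eigenvalues i

/-- The positive square energy `s⁺(G)`: the sum of the squares of the positive eigenvalues of the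
adjacency matrix of `G`. -/
noncomputable def posSquareEnergy (G : SimpleGraph V) [DecidableRel G.Adj] : ℝ :=
  ∑ i with 0 < eig G i, eig G i ^ 2

/-- The traces of the powers of a symmetric matrix. -/
theorem trace_pow_eq {A : Matrix V V ℝ} (hA : A.IsHermitian) (k : ℕ) :
    (A ^ k).trace = ∑ i, hA.eigenvalues i ^ k := by
  have h1 := hA.spectral_theorem
  have h2 : A ^ k = (hA.eigenvectorUnitary : Matrix V V ℝ) *
      (Matrix.diagonal (fun i => hA.eigenvalues i ^ k)) *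
      (star (hA.eigenvectorUnitary : Matrix V V ℝ)) := by
    conv_lhs => rw [h1]
    rw [← map_pow, Matrix.diagonal_pow, Unitary.conjStarAlgAut_apply]
    rfl
  rw [h2, Matrix.trace_mul_cycle, Unitary.coe_star_mul_self, Matrix.one_mul, Matrix.trace_diagonal]

section

variable (G : SimpleGraph V) [DecidableRel G.Adj]

theorem sum_eig : ∑ i, eig G i = 0 := by
  have h := trace_pow_eq (isHermitian_adj G) 1
  simp only [pow_one, SimpleGraph.trace_adjMatrix] at h
  exact h.symm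

theorem sum_eig_sq : ∑ i, eig G i ^ 2 = 2 * (G.edgeFinset.card : ℝ) := by
  have h := trace_pow_eq (isHermitian_adj G) 2
  have h2 : ((G.adjMatrix ℝ) ^ 2).trace = 2 * (G.edgeFinset.card : ℝ) := by
    rw [sq, Matrix.trace]
    simp only [Matrix.diag_apply, SimpleGraph.adjMatrix_mul_self_apply_self]
    exact_mod_cast G.sum_degrees_eq_twice_card_edges
  rw [← h2, h]
  rfl

theorem sum_eig_cube : 0 ≤ ∑ i, eig G i ^ 3 := by
  have h := trace_pow_eq (isHermitian_adj G) 3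
  have h2 : 0 ≤ ((G.adjMatrix ℝ) ^ 3).trace := by
    rw [Matrix.trace]
    refine Finset.sum_nonneg fun i _ => ?_
    rw [Matrix.diag_apply, SimpleGraph.adjMatrix_pow_apply_eq_card_walk]
    positivity
  rw [h] at h2
  exact h2

/-- The eigenvalues are at most the maximum degree. -/
theorem eig_le {D : ℕ} (hD : ∀ v, G.degree v ≤ D) (i : V) : eig G i ≤ D := by
  have h1 := (isHermitian_adj G).mulVec_eigenvectorBasis i
  obtain ⟨v, hv⟩ : ∃ v : V → ℝ, v = ⇑((isHermitian_adj G).eigenvectorBasis i) := ⟨_, rfl⟩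
  have hv0 : ∃ j, v j ≠ 0 := by
    by_contra hcon
    push Not at hcon
    have h2 : (isHermitian_adj G).eigenvectorBasis i = 0 := by
      ext j
      have := hcon j
      rw [hv] at this
      simpa using this
    have h3 := (isHermitian_adj G).eigenvectorBasis.orthonormal.ne_zero i
    exact h3 h2
  rw [← hv] at h1
  have : Nonempty V := ⟨i⟩
  obtain ⟨j, hj⟩ := Finite.exists_max (fun j => |v j|)
  have hj0 : 0 < |v j| := by
    obtain ⟨k, hk⟩ := hv0
    exact (abs_pos.2 hk).trans_le (hj k)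
  have h4 : eig G i * v j = ∑ u ∈ G.neighborFinset j, v u := by
    have h5 := congrFun h1 j
    rw [SimpleGraph.adjMatrix_mulVec_apply] at h5
    rw [h5]
    rfl
  have h6 : |eig G i| * |v j| ≤ D * |v j| := by
    rw [← abs_mul, h4]
    calc |∑ u ∈ G.neighborFinset j, v u| ≤ ∑ u ∈ G.neighborFinset j, |v u| :=
          Finset.abs_sum_le_sum_abs _ _
      _ ≤ ∑ _u ∈ G.neighborFinset j, |v j| := Finset.sum_le_sum fun u _ => hj u
      _ = G.degree j * |v j| := by
          rw [Finset.sum_const, nsmul_eq_mul, SimpleGraph.card_neighborFinset_eq_degree]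
      _ ≤ D * |v j| := mul_le_mul_of_nonneg_right (by exact_mod_cast hD j) hj0.le
  exact (le_abs_self _).trans (le_of_mul_le_mul_right h6 hj0)

/-- The basic inequality. -/
theorem master {L Λ : ℝ} (hΛ : 0 ≤ Λ) (hle : ∀ i, eig G i ≤ Λ) :
    2 * (G.edgeFinset.card : ℝ) * (L * (2 * L ^ 2 + 7 * L * Λ + 8 * Λ ^ 2)) -
      Fintype.card V * (L ^ 4 * Λ) ≤ 4 * (L + Λ) ^ 3 * posSquareEnergy G := by
  have hpt : ∀ i, (L ^ 4 + 2 * L ^ 3 * Λ + 4 * L ^ 2 * Λ ^ 2) * eig G i +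
      (L * (2 * L ^ 2 + 7 * L * Λ + 8 * Λ ^ 2)) * eig G i ^ 2 + (L + 2 * Λ) ^ 2 * eig G i ^ 3 -
      L ^ 4 * Λ ≤ 4 * (L + Λ) ^ 3 * (if 0 < eig G i then eig G i ^ 2 else 0) := by
    intro i
    have h1 := hle i
    obtain ⟨x, hx⟩ : ∃ x, x = eig G i := ⟨_, rfl⟩
    rw [← hx] at h1 ⊢
    split_ifs with h0
    · have h2 : 0 ≤ ((L + 2 * Λ) * x - L ^ 2) ^ 2 * (Λ - x) :=
        mul_nonneg (sq_nonneg _) (sub_nonneg.2 h1)
      nlinarith [h2]
    · have h2 : 0 ≤ (-x - L) ^ 2 * ((L + 2 * Λ) ^ 2 * (-x) + L ^ 2 * Λ) :=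
        mul_nonneg (sq_nonneg _) (add_nonneg (mul_nonneg (sq_nonneg _) (by linarith))
          (mul_nonneg (sq_nonneg _) hΛ))
      nlinarith [h2]
  have hs := Finset.sum_le_sum fun i (_ : i ∈ (Finset.univ : Finset V)) => hpt i
  rw [← Finset.mul_sum, ← Finset.sum_filter, Finset.sum_sub_distrib, Finset.sum_add_distrib,
    Finset.sum_add_distrib, ← Finset.mul_sum, ← Finset.mul_sum, ← Finset.mul_sum, sum_eig,
    sum_eig_sq, Finset.sum_const, Finset.card_univ, nsmul_eq_mul] at hs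
  have h3 := mul_nonneg (sq_nonneg (L + 2 * Λ)) (sum_eig_cube G)
  change _ ≤ 4 * (L + Λ) ^ 3 * (∑ i with 0 < eig G i, eig G i ^ 2)
  linarith

/-- The average degree is large compared with the square root of the largest eigenvalue. -/
theorem of_eig_le {Λ : ℝ} (hΛ : 3 ≤ Λ) (hle : ∀ i, eig G i ≤ Λ) (hn : 0 < Fintype.card V)
    (hd : (5 / 8 * √Λ + 6 / 5) * Fintype.card V ≤ 2 * (G.edgeFinset.card : ℝ)) :
    (Fintype.card V : ℝ) < posSquareEnergy G := by
  obtain ⟨s, hs⟩ : ∃ s, s = √Λ := ⟨_, rfl⟩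
  have hs0 : 0 ≤ s := by rw [hs]; exact Real.sqrt_nonneg _
  have hsq : Λ = s ^ 2 := by rw [hs, Real.sq_sqrt (by linarith)]
  have hs3 : 3 ≤ s ^ 2 := hsq ▸ hΛ
  have hs1 : 17 / 10 < s := by nlinarith
  rw [← hs] at hd
  have h1 := master G (L := s) (by linarith : (0:ℝ) ≤ Λ) hle
  rw [hsq] at h1
  have hn' : (0 : ℝ) < Fintype.card V := by exact_mod_cast hn
  obtain ⟨n, hn2⟩ : ∃ n : ℝ, n = Fintype.card V := ⟨_, rfl⟩
  obtain ⟨m, hm2⟩ : ∃ m : ℝ, m = 2 * (G.edgeFinset.card : ℝ) := ⟨_, rfl⟩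
  rw [← hn2, ← hm2] at h1 hd
  rw [← hn2] at hn' ⊢
  by_contra hcon
  push Not at hcon
  -- divide by s ^ 3
  have h2 : m * (8 * s ^ 2 + 7 * s + 2) - n * s ^ 3 ≤ 4 * (1 + s) ^ 3 * posSquareEnergy G := by
    have h3 : s ^ 3 * (m * (8 * s ^ 2 + 7 * s + 2) - n * s ^ 3) ≤
        s ^ 3 * (4 * (1 + s) ^ 3 * posSquareEnergy G) := by
      calc s ^ 3 * (m * (8 * s ^ 2 + 7 * s + 2) - n * s ^ 3)
          = m * (s * (2 * s ^ 2 + 7 * s * s ^ 2 + 8 * (s ^ 2) ^ 2)) - n * (s ^ 4 * s ^ 2) := by ring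
        _ ≤ 4 * (s + s ^ 2) ^ 3 * posSquareEnergy G := h1
        _ = s ^ 3 * (4 * (1 + s) ^ 3 * posSquareEnergy G) := by ring
    exact le_of_mul_le_mul_left h3 (by positivity)
  have h4 : 4 * (1 + s) ^ 3 * posSquareEnergy G ≤ 4 * (1 + s) ^ 3 * n :=
    mul_le_mul_of_nonneg_left hcon (by positivity)
  have h5 : (5 / 8 * s + 6 / 5) * n * (8 * s ^ 2 + 7 * s + 2) ≤ m * (8 * s ^ 2 + 7 * s + 2) :=
    mul_le_mul_of_nonneg_right hd (by positivity)
  have h6 : 0 < n * (79 / 40 * s ^ 2 - 47 / 20 * s - 8 / 5) := by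
    refine mul_pos hn' ?_
    nlinarith
  nlinarith

/-- The eigenvalues are at most the square root of the positive square energy. -/
theorem eig_le_sqrt {c : ℝ} (hc : posSquareEnergy G ≤ c) (i : V) : eig G i ≤ √c := by
  by_cases h0 : 0 < eig G i
  · refine Real.le_sqrt_of_sq_le (le_trans ?_ hc)
    refine Finset.single_le_sum (f := fun i => eig G i ^ 2) (fun _ _ => sq_nonneg _) ?_
    rw [Finset.mem_filter]
    exact ⟨Finset.mem_univ _, h0⟩
  · exact (not_lt.1 h0).trans (Real.sqrt_nonneg _)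

theorem of_card (hn : 9 ≤ Fintype.card V)
    (hd : (5 / 8 * (Fintype.card V : ℝ) ^ (1 / 4 : ℝ) + 6 / 5) * Fintype.card V ≤
      2 * (G.edgeFinset.card : ℝ)) : (Fintype.card V : ℝ) < posSquareEnergy G := by
  by_contra hcon
  push Not at hcon
  have h9 : (9 : ℝ) ≤ Fintype.card V := by exact_mod_cast hn
  have h3 : (3 : ℝ) ≤ √(Fintype.card V : ℝ) := Real.le_sqrt_of_sq_le (by linarith)
  have h4 : (Fintype.card V : ℝ) ^ (1 / 4 : ℝ) = √(√(Fintype.card V : ℝ)) := by
    rw [Real.sqrt_eq_rpow, Real.sqrt_eq_rpow, ← Real.rpow_mul (by linarith)]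
    norm_num
  rw [h4] at hd
  exact absurd (of_eig_le G h3 (eig_le_sqrt G hcon) (by omega) hd) (not_lt.2 hcon)

theorem of_subcubic (hD : ∀ v, G.degree v ≤ 3)
    (hd : 137 * Fintype.card V < 122 * G.edgeFinset.card) :
    (Fintype.card V : ℝ) < posSquareEnergy G := by
  have h1 := master G (L := 2) (Λ := 3) (by norm_num) fun i => by
    have := eig_le G hD i
    exact_mod_cast this
  have h2 : (137 * Fintype.card V : ℝ) < 122 * G.edgeFinset.card := by exact_mod_cast hd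
  nlinarith

end

/-- Let `G` be a graph with `n` vertices and `m` edges. (1) If all the eigenvalues of `G` are at most
`Λ` then `2 m L (2 L² + 7 L Λ + 8 Λ²) - n L⁴ Λ ≤ 4 (L + Λ)³ s⁺(G)` for all `L`. (2) If in addition
`Λ ≥ 3` and the average degree `2 m / n` is at least `5/8 √Λ + 6/5` then `s⁺(G) > n`. (3) The same
if all the degrees are at most `Λ`. (4) If `n ≥ 9` and the average degree is at least
`5/8 n^(1/4) + 6/5` then `s⁺(G) > n`. (5) If all the degrees are at most `3` and `122 m > 137 n` then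
`s⁺(G) > n`. -/
theorem result {V : Type*} [Fintype V] [DecidableEq V] (G : SimpleGraph V) [DecidableRel G.Adj] :
    (∀ Λ : ℝ, 0 ≤ Λ → (∀ i, eig G i ≤ Λ) → ∀ L : ℝ,
      2 * (G.edgeFinset.card : ℝ) * (L * (2 * L ^ 2 + 7 * L * Λ + 8 * Λ ^ 2)) -
        Fintype.card V * (L ^ 4 * Λ) ≤ 4 * (L + Λ) ^ 3 * posSquareEnergy G) ∧
    (∀ Λ : ℝ, 3 ≤ Λ → (∀ i, eig G i ≤ Λ) → 0 < Fintype.card V →
      (5 / 8 * √Λ + 6 / 5) * Fintype.card V ≤ 2 * (G.edgeFinset.card : ℝ) →
      (Fintype.card V : ℝ) < posSquareEnergy G) ∧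
    (∀ D : ℕ, 3 ≤ D → (∀ v, G.degree v ≤ D) → 0 < Fintype.card V →
      (5 / 8 * √(D : ℝ) + 6 / 5) * Fintype.card V ≤ 2 * (G.edgeFinset.card : ℝ) →
      (Fintype.card V : ℝ) < posSquareEnergy G) ∧
    (9 ≤ Fintype.card V →
      (5 / 8 * (Fintype.card V : ℝ) ^ (1 / 4 : ℝ) + 6 / 5) * Fintype.card V ≤
        2 * (G.edgeFinset.card : ℝ) →
      (Fintype.card V : ℝ) < posSquareEnergy G) ∧
    ((∀ v, G.degree v ≤ 3) → 137 * Fintype.card V < 122 * G.edgeFinset.card →
      (Fintype.card V : ℝ) < posSquareEnergy G) :=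
  ⟨fun _ hΛ hle _ => master G hΛ hle, fun _ hΛ hle hn hd => of_eig_le G hΛ hle hn hd,
    fun D hD hle hn hd => of_eig_le G (by exact_mod_cast hD) (eig_le G hle) hn hd,
    of_card G, of_subcubic G⟩

end Pool.Agent.Results.MP_3b2d6a_co.ManyEdges
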