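import Mathlib

/-!
# The positive square energy of graphs with few vertices of low degree

Let every vertex `u` of a finite graph choose a set of neighbours. For a vertex `v` let `k` be the
number of vertices which choose `v`, and `x v` the vector with the entry `λ √k` at `v` and the
entry `1` at all vertices which choose `v`. We use the positive semidefinite test matrix
`X = ∑ v, k ^ (-1/2) • x v (x v)ᵀ` in the variational bound `(tr A X) ^ 2 ≤ s⁺ ‖X‖ ^ 2`
(`test`). The contributions of triangles to `tr A X` and to `‖X‖ ^ 2` compensate each other, and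
the remaining part of `‖X‖ ^ 2` is estimated by numbers which depend only on the choices
(`den_le`, `RR_le`); see `main_ineq` and `sets`.

For part (6) of the result the choices get real weights `z v u` (`weighted`): the vertices of degree
at least `3` choose three neighbours, the vertices of degree `2` both neighbours (`zz`), and the
parts of `‖X‖ ^ 2` are estimated by the numbers of vertices and choices of the different types
(`MW_le`, `RW_le'`, `ZT_le`).
-/

set_option autoImplicit false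
set_option linter.unusedSectionVars false

open Finset

namespace Pool.Agent.Results.MP_3b2d6a_co.MinDegreeThree

theorem isHermitian_adj {V : Type*} (G : SimpleGraph V) [DecidableRel G.Adj] :
    (G.adjMatrix ℝ).IsHermitian := by
  rw [Matrix.IsHermitian, Matrix.conjTranspose_eq_transpose_of_trivial]
  exact G.isSymm_adjMatrix

variable {V : Type*} [Fintype V] [DecidableEq V]

/-- The eigenvalues of the adjacency matrix of `G` (with multiplicities). -/
noncomputable def eig (G : SimpleGraph V) [DecidableRel G.Adj] (i : V) : ℝ :=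
  (isHermitian_adj G).eigenvalues i

/-- The positive square energy `s⁺(G)`: the sum of the squares of the positive eigenvalues of the
adjacency matrix of `G`. -/
noncomputable def posSquareEnergy (G : SimpleGraph V) [DecidableRel G.Adj] : ℝ :=
  ∑ i with 0 < eig G i, eig G i ^ 2

/-- Test vectors: for `c ≥ 0` and vectors `x v`,
`(∑ c v ⟨x v, A x v⟩)² ≤ s⁺ ∑ c v c w ⟨x v, x w⟩²`. -/
theorem test (G : SimpleGraph V) [DecidableRel G.Adj] (c : V → ℝ) (hc : ∀ v, 0 ≤ c v)
    (x : V → V → ℝ)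
    (h0 : 0 ≤ ∑ v, c v * ∑ s, ∑ t, (if G.Adj s t then x v s * x v t else 0)) :
    (∑ v, c v * ∑ s, ∑ t, (if G.Adj s t then x v s * x v t else 0)) ^ 2 ≤
      posSquareEnergy G * ∑ v, ∑ w, c v * c w * (∑ t, x v t * x w t) ^ 2 := by
  classical
  set hA := isHermitian_adj G
  set U : Matrix V V ℝ := (hA.eigenvectorUnitary : Matrix V V ℝ) with hU
  have hUU : U * star U = 1 := Unitary.coe_mul_star_self hA.eigenvectorUnitary
  have hspec : G.adjMatrix ℝ = U * Matrix.diagonal (eig G) * star U := by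
    have h1 := hA.spectral_theorem
    conv_lhs => rw [h1]
    rw [Unitary.conjStarAlgAut_apply]
    rfl
  -- coefficients
  set a : V → V → ℝ := fun i v => ∑ t, U t i * x v t with ha
  have hstar : ∀ i t, (star U) i t = U t i := fun i t => by
    simp
  have hUe : ∀ s t, ∑ i, U s i * U t i = if s = t then 1 else 0 := by
    intro s t
    have := congrFun (congrFun hUU s) t
    rw [Matrix.mul_apply] at this
    simp only [hstar] at this
    rw [this, Matrix.one_apply]
  have hAe : ∀ s t, (if G.Adj s t then (1 : ℝ) else 0) = ∑ i, eig G i * (U s i * U t i) := by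
    intro s t
    have := congrFun (congrFun hspec s) t
    rw [SimpleGraph.adjMatrix_apply] at this
    rw [this, Matrix.mul_apply]
    refine Finset.sum_congr rfl fun i _ => ?_
    rw [Matrix.mul_diagonal, hstar]
    ring
  -- Parseval
  have hpar : ∀ v w, ∑ t, x v t * x w t = ∑ i, a i v * a i w := by
    intro v w
    have : ∀ i, a i v * a i w = ∑ s, ∑ t, (U s i * U t i) * (x v s * x w t) := by
      intro i
      simp only [ha, Finset.sum_mul_sum]
      exact Finset.sum_congr rfl fun s _ => Finset.sum_congr rfl fun t _ => by ring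
    simp only [this]
    rw [Finset.sum_comm]
    refine Finset.sum_congr rfl fun s _ => ?_
    rw [Finset.sum_comm]
    have : ∀ t, ∑ i, U s i * U t i * (x v s * x w t) = (if s = t then x v s * x w t else 0) := by
      intro t
      rw [← Finset.sum_mul, hUe]
      split_ifs <;> simp
    simp [this]
  have hquad : ∀ v, ∑ s, ∑ t, (if G.Adj s t then x v s * x v t else 0) =
      ∑ i, eig G i * a i v ^ 2 := by
    intro v
    have h1 : ∀ i, eig G i * a i v ^ 2 =
        ∑ s, ∑ t, (eig G i * (U s i * U t i)) * (x v s * x v t) := by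
      intro i
      simp only [ha]
      rw [pow_two, Finset.sum_mul_sum, Finset.mul_sum]
      refine Finset.sum_congr rfl fun s _ => ?_
      rw [Finset.mul_sum]
      exact Finset.sum_congr rfl fun t _ => by ring
    rw [Finset.sum_congr rfl fun i _ => h1 i]
    conv_rhs => rw [Finset.sum_comm]
    refine Finset.sum_congr rfl fun s _ => ?_
    conv_rhs => rw [Finset.sum_comm]
    refine Finset.sum_congr rfl fun t _ => ?_
    rw [← Finset.sum_mul, ← hAe]
    split_ifs <;> simp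
  set y : V → ℝ := fun i => ∑ v, c v * a i v ^ 2 with hy
  have hy0 : ∀ i, 0 ≤ y i := fun i =>
    Finset.sum_nonneg fun v _ => mul_nonneg (hc v) (sq_nonneg _)
  have hN : ∑ v, c v * ∑ s, ∑ t, (if G.Adj s t then x v s * x v t else 0) =
      ∑ i, eig G i * y i := by
    simp only [hquad, hy, Finset.mul_sum]
    rw [Finset.sum_comm]
    exact Finset.sum_congr rfl fun i _ => Finset.sum_congr rfl fun v _ => by ring
  have hle : ∑ i, eig G i * y i ≤ ∑ i with 0 < eig G i, eig G i * y i := by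
    rw [Finset.sum_filter]
    refine Finset.sum_le_sum fun i _ => ?_
    split_ifs with h
    · exact le_rfl
    · exact mul_nonpos_of_nonpos_of_nonneg (not_lt.1 h) (hy0 i)
  have hCS : (∑ i with 0 < eig G i, eig G i * y i) ^ 2 ≤
      (∑ i with 0 < eig G i, eig G i ^ 2) * ∑ i with 0 < eig G i, y i ^ 2 :=
    Finset.sum_mul_sq_le_sq_mul_sq _ _ _
  have hyle : ∑ i with 0 < eig G i, y i ^ 2 ≤
      ∑ v, ∑ w, c v * c w * (∑ t, x v t * x w t) ^ 2 := by
    have h1 : ∑ v, ∑ w, c v * c w * (∑ t, x v t * x w t) ^ 2 =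
        ∑ i, ∑ k, (∑ v, c v * (a i v * a k v)) ^ 2 := by
      have h2 : ∀ v w, c v * c w * (∑ t, x v t * x w t) ^ 2 =
          ∑ i, ∑ k, (c v * (a i v * a k v)) * (c w * (a i w * a k w)) := by
        intro v w
        rw [hpar, pow_two, Finset.sum_mul_sum, Finset.mul_sum]
        refine Finset.sum_congr rfl fun i _ => ?_
        rw [Finset.mul_sum]
        exact Finset.sum_congr rfl fun k _ => by ring
      have h3 : ∀ i k, (∑ v, c v * (a i v * a k v)) ^ 2 =
          ∑ v, ∑ w, (c v * (a i v * a k v)) * (c w * (a i w * a k w)) := by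
        intro i k
        rw [pow_two, Finset.sum_mul_sum]
      simp only [h2, h3]
      have e1 : ∀ v : V, ∑ w, ∑ i, ∑ k, (c v * (a i v * a k v)) * (c w * (a i w * a k w)) =
          ∑ i, ∑ k, ∑ w, (c v * (a i v * a k v)) * (c w * (a i w * a k w)) := by
        intro v
        rw [Finset.sum_comm]
        exact Finset.sum_congr rfl fun i _ => Finset.sum_comm
      simp only [e1]
      rw [Finset.sum_comm]
      exact Finset.sum_congr rfl fun i _ => Finset.sum_comm
    rw [h1]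
    calc ∑ i with 0 < eig G i, y i ^ 2 ≤ ∑ i, y i ^ 2 :=
          Finset.sum_le_sum_of_subset_of_nonneg (Finset.filter_subset _ _)
            fun i _ _ => sq_nonneg _
      _ ≤ ∑ i, ∑ k, (∑ v, c v * (a i v * a k v)) ^ 2 := by
          refine Finset.sum_le_sum fun i _ => ?_
          have h4 : y i ^ 2 = (∑ v, c v * (a i v * a i v)) ^ 2 := by
            simp only [hy, pow_two]
          rw [h4]
          exact Finset.single_le_sum (f := fun k => (∑ v, c v * (a i v * a k v)) ^ 2)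
            (fun k _ => sq_nonneg _) (Finset.mem_univ i)
  rw [hN] at h0 ⊢
  calc (∑ i, eig G i * y i) ^ 2 ≤ (∑ i with 0 < eig G i, eig G i * y i) ^ 2 :=
        pow_le_pow_left₀ h0 hle 2
    _ ≤ (∑ i with 0 < eig G i, eig G i ^ 2) * ∑ i with 0 < eig G i, y i ^ 2 := hCS
    _ ≤ posSquareEnergy G * ∑ v, ∑ w, c v * c w * (∑ t, x v t * x w t) ^ 2 :=
        mul_le_mul_of_nonneg_left hyle (Finset.sum_nonneg fun i _ => sq_nonneg _)


section stars

variable (G : SimpleGraph V) [DecidableRel G.Adj] (χ : V → V → ℝ)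

/-- The number of vertices which choose `v`. -/
noncomputable def kk (v : V) : ℝ := ∑ t, χ v t

/-- The number of vertices which choose both `v` and `w`. -/
noncomputable def DD (v w : V) : ℝ := ∑ t, χ v t * χ w t

/-- The number of ordered pairs of adjacent vertices which both choose `v`. -/
noncomputable def TT (v : V) : ℝ := ∑ s, ∑ t, if G.Adj s t then χ v s * χ v t else 0

/-- The test vectors. -/
noncomputable def xx (lam : ℝ) (v t : V) : ℝ := (if t = v then lam * √(kk χ v) else 0) + χ v t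

variable {χ} (h01 : ∀ v t, χ v t = 0 ∨ χ v t = 1) (hadj : ∀ v t, χ v t ≠ 0 → G.Adj v t)

include h01 in
theorem chi_nonneg (v t : V) : 0 ≤ χ v t := by rcases h01 v t with h | h <;> rw [h]; norm_num

include h01 in
theorem chi_le_one (v t : V) : χ v t ≤ 1 := by rcases h01 v t with h | h <;> rw [h]; norm_num

include h01 in
theorem chi_sq (v t : V) : χ v t * χ v t = χ v t := by rcases h01 v t with h | h <;> rw [h] <;> simp

include h01 in
theorem kk_nonneg (v : V) : 0 ≤ kk χ v := Finset.sum_nonneg fun t _ => chi_nonneg h01 v t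

include h01 in
theorem DD_nonneg (v w : V) : 0 ≤ DD χ v w :=
  Finset.sum_nonneg fun t _ => mul_nonneg (chi_nonneg h01 v t) (chi_nonneg h01 w t)

include h01 in
theorem DD_le_left (v w : V) : DD χ v w ≤ kk χ v :=
  Finset.sum_le_sum fun t _ =>
    mul_le_of_le_one_right (chi_nonneg h01 v t) (chi_le_one h01 w t)

include h01 in
theorem DD_le_right (v w : V) : DD χ v w ≤ kk χ w :=
  Finset.sum_le_sum fun t _ =>
    mul_le_of_le_one_left (chi_nonneg h01 w t) (chi_le_one h01 v t)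

include h01 in
theorem TT_nonneg (v : V) : 0 ≤ TT G χ v :=
  Finset.sum_nonneg fun s _ => Finset.sum_nonneg fun t _ => by
    split_ifs
    · exact mul_nonneg (chi_nonneg h01 v s) (chi_nonneg h01 v t)
    · exact le_rfl

include h01 in
/-- `k_v` is zero or at least one. -/
theorem kk_zero_or (v : V) : kk χ v = 0 ∨ 1 ≤ kk χ v := by
  by_cases h : ∀ t, χ v t = 0
  · left
    simp [kk, h]
  · right
    push Not at h
    obtain ⟨t, ht⟩ := h
    have h1 : χ v t = 1 := (h01 v t).resolve_left ht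
    rw [← h1]
    exact Finset.single_le_sum (f := fun t => χ v t) (fun t _ => chi_nonneg h01 v t)
      (Finset.mem_univ t)

include h01 in
theorem inv_le_one' (v : V) : (√(kk χ v))⁻¹ ≤ 1 := by
  rcases kk_zero_or h01 v with h | h
  · rw [h]; simp
  · exact inv_le_one_of_one_le₀ (Real.one_le_sqrt.2 h)

include h01 in
theorem inv_mul_le (v : V) : (√(kk χ v))⁻¹ * √(kk χ v) ≤ 1 := by
  rcases kk_zero_or h01 v with h | h
  · rw [h]; simp
  · rw [inv_mul_cancel₀ (by positivity)]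

include h01 in
theorem inv_mul_kk (v : V) : (√(kk χ v))⁻¹ * kk χ v = √(kk χ v) := by
  rcases kk_zero_or h01 v with h | h
  · rw [h]; simp
  · have h2 : √(kk χ v) * √(kk χ v) = kk χ v := Real.mul_self_sqrt (kk_nonneg h01 v)
    have h3 : √(kk χ v) ≠ 0 := by positivity
    field_simp
    rw [pow_two, h2]

include h01 in
theorem inner_eq (lam : ℝ) (v w : V) : ∑ t, xx χ lam v t * xx χ lam w t =
    (if v = w then lam ^ 2 * kk χ v else 0) +
      (lam * (√(kk χ v) * χ w v + √(kk χ w) * χ v w) + DD χ v w) := by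
  have h : ∀ t, xx χ lam v t * xx χ lam w t =
      (if t = v then (if t = w then (lam * √(kk χ v)) * (lam * √(kk χ w)) else 0) else 0) +
      ((if t = v then lam * √(kk χ v) * χ w t else 0) +
        (if t = w then lam * √(kk χ w) * χ v t else 0) + χ v t * χ w t) := by
    intro t
    unfold xx
    split_ifs <;> ring
  simp only [h, Finset.sum_add_distrib, Finset.sum_ite_eq', Finset.mem_univ, if_true, DD]
  have h2 : (if v = w then (lam * √(kk χ v)) * (lam * √(kk χ w)) else 0) =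
      (if v = w then lam ^ 2 * kk χ v else 0) := by
    split_ifs with hvw
    · subst hvw
      have := Real.mul_self_sqrt (kk_nonneg h01 v)
      calc lam * √(kk χ v) * (lam * √(kk χ v)) = lam ^ 2 * (√(kk χ v) * √(kk χ v)) := by ring
        _ = _ := by rw [this]
    · rfl
  rw [h2]
  ring

include h01 hadj in
theorem num_eq (lam : ℝ) :
    ∑ v, (√(kk χ v))⁻¹ * ∑ s, ∑ t, (if G.Adj s t then xx χ lam v s * xx χ lam v t else 0) =
      2 * lam * ∑ v, kk χ v + ∑ v, (√(kk χ v))⁻¹ * TT G χ v := by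
  rw [Finset.mul_sum, ← Finset.sum_add_distrib]
  refine Finset.sum_congr rfl fun v _ => ?_
  have hA : ∀ t, (if G.Adj v t then χ v t else 0) = χ v t := by
    intro t
    split_ifs with h
    · rfl
    · by_contra h2
      exact h (hadj v t (fun h3 => h2 h3.symm))
  have h : ∀ s t, (if G.Adj s t then xx χ lam v s * xx χ lam v t else 0) =
      (if s = v then (lam * √(kk χ v)) * (if G.Adj v t then χ v t else 0) else 0) +
      (if t = v then (lam * √(kk χ v)) * (if G.Adj v s then χ v s else 0) else 0) +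
      (if G.Adj s t then χ v s * χ v t else 0) := by
    intro s t
    unfold xx
    by_cases hs : s = v
    · subst hs
      by_cases ht : t = s
      · subst ht
        simp
      · simp only [ht, if_true, if_false]
        split_ifs <;> ring
    · by_cases ht : t = v
      · subst ht
        simp only [hs, if_true, if_false, G.adj_comm t s]
        split_ifs <;> ring
      · simp only [hs, ht, if_false]
        split_ifs <;> ring
  simp only [h, hA, Finset.sum_add_distrib, Finset.sum_ite_eq', Finset.mem_univ, if_true]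
  have h1 : ∑ s, ∑ t, (if s = v then (lam * √(kk χ v)) * χ v t else 0) =
      lam * √(kk χ v) * kk χ v := by
    rw [Finset.sum_comm]
    simp [kk, Finset.mul_sum]
  rw [h1, ← Finset.mul_sum]
  have h2 : (√(kk χ v))⁻¹ * kk χ v = √(kk χ v) := inv_mul_kk h01 v
  have h3 : √(kk χ v) * √(kk χ v) = kk χ v := Real.mul_self_sqrt (kk_nonneg h01 v)
  change (√(kk χ v))⁻¹ * (lam * √(kk χ v) * kk χ v + lam * √(kk χ v) * kk χ v + TT G χ v) = _
  calc _ = 2 * lam * (√(kk χ v) * ((√(kk χ v))⁻¹ * kk χ v)) + (√(kk χ v))⁻¹ * TT G χ v := by ring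
    _ = _ := by rw [h2, h3]

include h01 hadj in
theorem term_le {lam : ℝ} (hl : 0 ≤ lam) (v w : V) :
    (√(kk χ v))⁻¹ * (√(kk χ w))⁻¹ * (∑ t, xx χ lam v t * xx χ lam w t) ^ 2 ≤
      (if v = w then kk χ v * (lam ^ 4 + 2 * lam ^ 2) else 0) +
      lam ^ 2 * ((√(kk χ w))⁻¹ * (√(kk χ v) * χ w v)) +
      lam ^ 2 * ((√(kk χ v))⁻¹ * (√(kk χ w) * χ v w)) + 2 * lam ^ 2 * (χ w v * χ v w) +
      2 * lam * ((√(kk χ w))⁻¹ * (χ w v * DD χ w v)) +
      2 * lam * ((√(kk χ v))⁻¹ * (χ v w * DD χ v w)) + DD χ v w := by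
  have hloop : ∀ u, χ u u = 0 := fun u => by
    by_contra h
    exact (hadj u u h).ne rfl
  rw [inner_eq h01 lam v w]
  have hk := kk_nonneg h01 v
  have hk' := kk_nonneg h01 w
  by_cases hvw : v = w
  · subst hvw
    have hD : DD χ v v = kk χ v := by
      unfold DD kk
      exact Finset.sum_congr rfl fun t _ => chi_sq h01 v t
    simp only [if_true, hloop, mul_zero, zero_mul, add_zero, hD, zero_add]
    have h2 : (√(kk χ v))⁻¹ * kk χ v = √(kk χ v) := inv_mul_kk h01 v
    have h3 : √(kk χ v) * √(kk χ v) = kk χ v := Real.mul_self_sqrt hk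
    have h4 : (√(kk χ v))⁻¹ * (√(kk χ v))⁻¹ * (lam ^ 2 * kk χ v + kk χ v) ^ 2 =
        kk χ v * (lam ^ 2 + 1) ^ 2 := by
      calc _ = ((√(kk χ v))⁻¹ * kk χ v) * ((√(kk χ v))⁻¹ * kk χ v) * (lam ^ 2 + 1) ^ 2 := by ring
        _ = _ := by rw [h2, h3]
    rw [h4]
    apply le_of_eq
    ring
  · simp only [if_neg hvw, zero_add]
    have hD : DD χ w v = DD χ v w := by
      unfold DD
      exact Finset.sum_congr rfl fun t _ => mul_comm _ _
    rw [hD]
    have hD0 := DD_nonneg h01 v w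
    have hDl := DD_le_left h01 v w
    have hDr := DD_le_right h01 v w
    have c1 : 0 ≤ (√(kk χ v))⁻¹ := by positivity
    have c2 : 0 ≤ (√(kk χ w))⁻¹ := by positivity
    have c1' := inv_le_one' h01 v
    have c2' := inv_le_one' h01 w
    have m1 := inv_mul_le h01 v
    have m2 := inv_mul_le h01 w
    have k1 := inv_mul_kk h01 v
    have k2 := inv_mul_kk h01 w
    have s1 := Real.mul_self_sqrt hk
    have s2 := Real.mul_self_sqrt hk'
    have x1 := chi_nonneg h01 w v
    have x2 := chi_nonneg h01 v w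
    have x1' := chi_le_one h01 w v
    have x2' := chi_le_one h01 v w
    have q1 := chi_sq h01 w v
    have q2 := chi_sq h01 v w
    have r1 : 0 ≤ √(kk χ v) := Real.sqrt_nonneg _
    have r2 : 0 ≤ √(kk χ w) := Real.sqrt_nonneg _
    -- the square
    have e1 : (√(kk χ v))⁻¹ * (√(kk χ w))⁻¹ *
        (lam * (√(kk χ v) * χ w v + √(kk χ w) * χ v w) + DD χ v w) ^ 2 =
        lam ^ 2 * ((√(kk χ w))⁻¹ * (((√(kk χ v))⁻¹ * (√(kk χ v) * √(kk χ v))) * (χ w v * χ w v))) +
        lam ^ 2 * ((√(kk χ v))⁻¹ * (((√(kk χ w))⁻¹ * (√(kk χ w) * √(kk χ w))) * (χ v w * χ v w))) +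
        2 * lam ^ 2 * (((√(kk χ v))⁻¹ * √(kk χ v)) * ((√(kk χ w))⁻¹ * √(kk χ w)) *
          (χ w v * χ v w)) +
        2 * lam * (((√(kk χ v))⁻¹ * √(kk χ v)) * ((√(kk χ w))⁻¹ * (χ w v * DD χ v w))) +
        2 * lam * (((√(kk χ w))⁻¹ * √(kk χ w)) * ((√(kk χ v))⁻¹ * (χ v w * DD χ v w))) +
        (√(kk χ v))⁻¹ * (√(kk χ w))⁻¹ * DD χ v w ^ 2 := by ring
    rw [e1, s1, s2, k1, k2, q1, q2]
    have m1' : 0 ≤ (√(kk χ v))⁻¹ * √(kk χ v) := mul_nonneg c1 r1
    have m2' : 0 ≤ (√(kk χ w))⁻¹ * √(kk χ w) := mul_nonneg c2 r2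
    have b3 : 2 * lam ^ 2 * (((√(kk χ v))⁻¹ * √(kk χ v)) * ((√(kk χ w))⁻¹ * √(kk χ w)) *
          (χ w v * χ v w)) ≤ 2 * lam ^ 2 * (χ w v * χ v w) := by
      refine mul_le_mul_of_nonneg_left ?_ (by positivity)
      calc ((√(kk χ v))⁻¹ * √(kk χ v)) * ((√(kk χ w))⁻¹ * √(kk χ w)) * (χ w v * χ v w)
          ≤ 1 * (χ w v * χ v w) :=
            mul_le_mul_of_nonneg_right (mul_le_one₀ m1 m2' m2) (mul_nonneg x1 x2)
        _ = χ w v * χ v w := one_mul _
    have b4 : 2 * lam * (((√(kk χ v))⁻¹ * √(kk χ v)) * ((√(kk χ w))⁻¹ * (χ w v * DD χ v w))) ≤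
        2 * lam * ((√(kk χ w))⁻¹ * (χ w v * DD χ v w)) :=
      mul_le_mul_of_nonneg_left
        (mul_le_of_le_one_left (mul_nonneg c2 (mul_nonneg x1 hD0)) m1) (by positivity)
    have b5 : 2 * lam * (((√(kk χ w))⁻¹ * √(kk χ w)) * ((√(kk χ v))⁻¹ * (χ v w * DD χ v w))) ≤
        2 * lam * ((√(kk χ v))⁻¹ * (χ v w * DD χ v w)) :=
      mul_le_mul_of_nonneg_left
        (mul_le_of_le_one_left (mul_nonneg c1 (mul_nonneg x2 hD0)) m2) (by positivity)
    have b6 : (√(kk χ v))⁻¹ * (√(kk χ w))⁻¹ * DD χ v w ^ 2 ≤ DD χ v w := by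
      have h1 : DD χ v w ≤ √(kk χ v) * √(kk χ w) := by
        rw [← Real.sqrt_mul hk]
        apply Real.le_sqrt_of_sq_le
        rw [pow_two]
        exact mul_le_mul hDl hDr hD0 hk
      have h2 : (√(kk χ v))⁻¹ * (√(kk χ w))⁻¹ * DD χ v w ≤ 1 := by
        calc (√(kk χ v))⁻¹ * (√(kk χ w))⁻¹ * DD χ v w
            ≤ (√(kk χ v))⁻¹ * (√(kk χ w))⁻¹ * (√(kk χ v) * √(kk χ w)) :=
              mul_le_mul_of_nonneg_left h1 (mul_nonneg c1 c2)
          _ = ((√(kk χ v))⁻¹ * √(kk χ v)) * ((√(kk χ w))⁻¹ * √(kk χ w)) := by ring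
          _ ≤ 1 := mul_le_one₀ m1 m2' m2
      calc (√(kk χ v))⁻¹ * (√(kk χ w))⁻¹ * DD χ v w ^ 2
          = ((√(kk χ v))⁻¹ * (√(kk χ w))⁻¹ * DD χ v w) * DD χ v w := by ring
        _ ≤ DD χ v w := mul_le_of_le_one_left hD0 h2
    linarith

include h01 hadj in
theorem sum_chi_DD_le (w : V) : ∑ v, χ w v * DD χ w v ≤ TT G χ w := by
  unfold DD TT
  refine Finset.sum_le_sum fun v _ => ?_
  rw [Finset.mul_sum]
  refine Finset.sum_le_sum fun t _ => ?_
  have x1 := chi_nonneg h01 w v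
  have x2 := chi_nonneg h01 w t
  split_ifs with h
  · calc χ w v * (χ w t * χ v t) = χ w v * χ w t * χ v t := by ring
      _ ≤ χ w v * χ w t := mul_le_of_le_one_right (mul_nonneg x1 x2) (chi_le_one h01 v t)
  · have h0 : χ v t = 0 := by
      by_contra h2
      exact h (hadj v t h2)
    rw [h0]
    simp

/-- The sum of `√(k_v / k_w)` over all pairs such that `v` chooses `w`. -/
noncomputable def RR (χ : V → V → ℝ) : ℝ := ∑ v, ∑ w, (√(kk χ w))⁻¹ * (√(kk χ v) * χ w v)

/-- The number of mutual choices. -/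
noncomputable def MM (χ : V → V → ℝ) : ℝ := ∑ v, ∑ w, χ w v * χ v w

include h01 hadj in
theorem den_le {lam : ℝ} (hl : 0 ≤ lam) :
    ∑ v, ∑ w, (√(kk χ v))⁻¹ * (√(kk χ w))⁻¹ * (∑ t, xx χ lam v t * xx χ lam w t) ^ 2 ≤
      (lam ^ 4 + 2 * lam ^ 2) * (∑ v, kk χ v) + 2 * lam ^ 2 * RR χ + 2 * lam ^ 2 * MM χ +
      4 * lam * (∑ v, (√(kk χ v))⁻¹ * TT G χ v) + ∑ t, (∑ v, χ v t) ^ 2 := by
  have h1 : ∑ v, ∑ w, (√(kk χ v))⁻¹ * (√(kk χ w))⁻¹ *
      (∑ t, xx χ lam v t * xx χ lam w t) ^ 2 ≤ ∑ v, ∑ w,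
      ((if v = w then kk χ v * (lam ^ 4 + 2 * lam ^ 2) else 0) +
      lam ^ 2 * ((√(kk χ w))⁻¹ * (√(kk χ v) * χ w v)) +
      lam ^ 2 * ((√(kk χ v))⁻¹ * (√(kk χ w) * χ v w)) + 2 * lam ^ 2 * (χ w v * χ v w) +
      2 * lam * ((√(kk χ w))⁻¹ * (χ w v * DD χ w v)) +
      2 * lam * ((√(kk χ v))⁻¹ * (χ v w * DD χ v w)) + DD χ v w) :=
    Finset.sum_le_sum fun v _ => Finset.sum_le_sum fun w _ => term_le G h01 hadj hl v w
  refine h1.trans ?_
  simp only [Finset.sum_add_distrib]
  have e0 : ∑ v, ∑ w, (if v = w then kk χ v * (lam ^ 4 + 2 * lam ^ 2) else 0) =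
      (lam ^ 4 + 2 * lam ^ 2) * ∑ v, kk χ v := by
    simp only [Finset.sum_ite_eq, Finset.mem_univ, if_true, Finset.mul_sum]
    exact Finset.sum_congr rfl fun v _ => mul_comm _ _
  have e1 : ∑ v, ∑ w, lam ^ 2 * ((√(kk χ w))⁻¹ * (√(kk χ v) * χ w v)) =
      lam ^ 2 * RR χ := by
    simp only [RR, Finset.mul_sum]
  have e2 : ∑ v, ∑ w, lam ^ 2 * ((√(kk χ v))⁻¹ * (√(kk χ w) * χ v w)) =
      lam ^ 2 * RR χ := by
    rw [Finset.sum_comm]
    simp only [RR, Finset.mul_sum]
  have e3 : ∑ v, ∑ w, 2 * lam ^ 2 * (χ w v * χ v w) = 2 * lam ^ 2 * MM χ := by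
    simp only [MM, Finset.mul_sum]
  have e5 : ∑ v, ∑ w, 2 * lam * ((√(kk χ v))⁻¹ * (χ v w * DD χ v w)) ≤
      2 * lam * ∑ v, (√(kk χ v))⁻¹ * TT G χ v := by
    simp only [← Finset.mul_sum]
    refine mul_le_mul_of_nonneg_left (Finset.sum_le_sum fun v _ => ?_) (by positivity)
    exact mul_le_mul_of_nonneg_left (sum_chi_DD_le G h01 hadj v) (by positivity)
  have e4 : ∑ v, ∑ w, 2 * lam * ((√(kk χ w))⁻¹ * (χ w v * DD χ w v)) ≤
      2 * lam * ∑ v, (√(kk χ v))⁻¹ * TT G χ v := by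
    rw [Finset.sum_comm]
    exact e5
  have e6 : ∑ v, ∑ w, DD χ v w = ∑ t, (∑ v, χ v t) ^ 2 := by
    unfold DD
    have : ∀ v : V, ∑ w, ∑ t, χ v t * χ w t = ∑ t, ∑ w, χ v t * χ w t := fun v => Finset.sum_comm
    simp only [this]
    rw [Finset.sum_comm]
    refine Finset.sum_congr rfl fun t _ => ?_
    rw [pow_two, Finset.sum_mul_sum]
  rw [e0, e1, e2, e3, e6]
  linarith

include h01 in
theorem RR_le : RR χ ≤ √((∑ v, kk χ v * ∑ w, χ w v) * ∑ w, (if kk χ w = 0 then 0 else 1)) := by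
  apply Real.le_sqrt_of_sq_le
  have h1 := Finset.sum_mul_sq_le_sq_mul_sq (Finset.univ : Finset (V × V))
    (fun p => √(kk χ p.1) * χ p.2 p.1) (fun p => (√(kk χ p.2))⁻¹ * χ p.2 p.1)
  have h2 : ∑ p : V × V, (√(kk χ p.1) * χ p.2 p.1) * ((√(kk χ p.2))⁻¹ * χ p.2 p.1) = RR χ := by
    rw [Fintype.sum_prod_type]
    unfold RR
    refine Finset.sum_congr rfl fun v _ => Finset.sum_congr rfl fun w _ => ?_
    calc _ = (√(kk χ w))⁻¹ * (√(kk χ v) * (χ w v * χ w v)) := by ring
      _ = _ := by rw [chi_sq h01]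
  have h3 : ∑ p : V × V, (√(kk χ p.1) * χ p.2 p.1) ^ 2 = ∑ v, kk χ v * ∑ w, χ w v := by
    rw [Fintype.sum_prod_type]
    refine Finset.sum_congr rfl fun v _ => ?_
    rw [Finset.mul_sum]
    refine Finset.sum_congr rfl fun w _ => ?_
    rw [mul_pow, Real.sq_sqrt (kk_nonneg h01 v), pow_two, chi_sq h01]
  have h4 : ∑ p : V × V, ((√(kk χ p.2))⁻¹ * χ p.2 p.1) ^ 2 =
      ∑ w, (if kk χ w = 0 then 0 else 1) := by
    rw [Fintype.sum_prod_type, Finset.sum_comm]
    refine Finset.sum_congr rfl fun w _ => ?_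
    have h5 : ∀ v, ((√(kk χ w))⁻¹ * χ w v) ^ 2 = (kk χ w)⁻¹ * χ w v := by
      intro v
      rw [mul_pow, inv_pow, Real.sq_sqrt (kk_nonneg h01 w), pow_two, chi_sq h01]
    simp only [h5, ← Finset.mul_sum]
    change (kk χ w)⁻¹ * kk χ w = _
    split_ifs with h
    · rw [h]; simp
    · exact inv_mul_cancel₀ h
  rw [h2, h3, h4] at h1
  exact h1

include h01 hadj in
/-- The main inequality. -/
theorem main_ineq (M J : ℝ) (hM : M = ∑ v, kk χ v) (hJ : J = ∑ t, (∑ v, χ v t) ^ 2) :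
    2 * M ^ 2 ≤ (M + MM χ + √(M * J) + RR χ) * posSquareEnergy G := by
  have hs0 : 0 ≤ posSquareEnergy G := Finset.sum_nonneg fun i _ => sq_nonneg _
  have hM0 : 0 ≤ M := by rw [hM]; exact Finset.sum_nonneg fun v _ => kk_nonneg h01 v
  have hMM0 : 0 ≤ MM χ := Finset.sum_nonneg fun v _ => Finset.sum_nonneg fun w _ =>
    mul_nonneg (chi_nonneg h01 w v) (chi_nonneg h01 v w)
  have hRR0 : 0 ≤ RR χ := Finset.sum_nonneg fun v _ => Finset.sum_nonneg fun w _ =>
    mul_nonneg (by positivity) (mul_nonneg (Real.sqrt_nonneg _) (chi_nonneg h01 w v))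
  rcases hM0.eq_or_lt with h | hMp
  · rw [← h]
    have : 0 ≤ (0 + MM χ + √(0 * J) + RR χ) * posSquareEnergy G := by positivity
    linarith
  have hMsw : M = ∑ t, ∑ v, χ v t := by
    rw [hM, Finset.sum_comm]
    rfl
  have hMJ' : M ≤ J := by
    rw [hMsw, hJ]
    refine Finset.sum_le_sum fun t _ => ?_
    have h1 : ∀ v, χ v t ≤ (∑ w, χ w t) * χ v t := by
      intro v
      rcases h01 v t with h | h
      · rw [h]; simp
      · rw [h, mul_one, ← h]
        exact Finset.single_le_sum (f := fun w => χ w t) (fun w _ => chi_nonneg h01 w t)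
          (Finset.mem_univ v)
    calc ∑ v, χ v t ≤ ∑ v, (∑ w, χ w t) * χ v t := Finset.sum_le_sum fun v _ => h1 v
      _ = (∑ v, χ v t) ^ 2 := by rw [← Finset.mul_sum, pow_two]
  have hJp : 0 < J := hMp.trans_le hMJ'
  set q : ℝ := √(J / M) with hq
  have hq1 : 1 ≤ q := Real.one_le_sqrt.2 ((one_le_div hMp).2 hMJ')
  have hqp : 0 < q := by linarith
  have hq2 : q ^ 2 * M = J := by
    rw [hq, Real.sq_sqrt (div_nonneg hJp.le hM0)]
    field_simp
  have hMJ : √(M * J) = q * M := by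
    rw [← hq2, show M * (q ^ 2 * M) = (q * M) ^ 2 by ring]
    exact Real.sqrt_sq (by positivity)
  set lam : ℝ := √q with hlam
  have hl0 : 0 ≤ lam := Real.sqrt_nonneg _
  have hl2 : lam ^ 2 = q := Real.sq_sqrt hqp.le
  have hl4 : lam ^ 4 = q ^ 2 := by rw [← hl2]; ring
  set E : ℝ := ∑ v, (√(kk χ v))⁻¹ * TT G χ v with hE
  have hE0 : 0 ≤ E := Finset.sum_nonneg fun v _ =>
    mul_nonneg (by positivity) (TT_nonneg G h01 v)
  have hnum := num_eq G h01 hadj lam
  have hden := den_le G h01 hadj hl0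
  rw [← hM] at hnum hden
  rw [← hJ, ← hE] at hden
  rw [← hE] at hnum
  have ht := test G (fun v => (√(kk χ v))⁻¹) (fun v => by positivity) (fun v t => xx χ lam v t)
    (by rw [hnum]; positivity)
  rw [hnum] at ht
  rw [hMJ]
  set D : ℝ := M + MM χ + q * M + RR χ with hD
  have hDM : 2 * M ≤ D := by
    have : M ≤ q * M := le_mul_of_one_le_left hM0 hq1
    rw [hD]
    linarith
  have hden2 : ∑ v, ∑ w, (√(kk χ v))⁻¹ * (√(kk χ w))⁻¹ *
      (∑ t, xx χ lam v t * xx χ lam w t) ^ 2 ≤ 2 * q * D + 4 * lam * E := by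
    refine hden.trans (le_of_eq ?_)
    rw [hl4, hl2, hD, ← hq2]
    ring
  have h3 : (2 * lam * M + E) ^ 2 ≤ posSquareEnergy G * (2 * q * D + 4 * lam * E) :=
    ht.trans (mul_le_mul_of_nonneg_left hden2 hs0)
  by_contra hcon
  push Not at hcon
  have h4 : posSquareEnergy G < M := by
    by_contra h5
    push Not at h5
    have : 2 * M ^ 2 ≤ D * posSquareEnergy G := by
      calc 2 * M ^ 2 = (2 * M) * M := by ring
        _ ≤ D * posSquareEnergy G := mul_le_mul hDM h5 hM0 (by linarith)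
    exact absurd this (not_le.2 hcon)
  have h6 : posSquareEnergy G * (2 * q * D + 4 * lam * E) <
      4 * q * M ^ 2 + 4 * lam * M * E := by
    have h7 : posSquareEnergy G * (2 * q * D) < 4 * q * M ^ 2 := by
      calc posSquareEnergy G * (2 * q * D) = 2 * q * (D * posSquareEnergy G) := by ring
        _ < 2 * q * (2 * M ^ 2) := mul_lt_mul_of_pos_left hcon (by positivity)
        _ = 4 * q * M ^ 2 := by ring
    have h8 : posSquareEnergy G * (4 * lam * E) ≤ 4 * lam * M * E := by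
      calc posSquareEnergy G * (4 * lam * E) ≤ M * (4 * lam * E) :=
            mul_le_mul_of_nonneg_right h4.le (by positivity)
        _ = _ := by ring
    calc _ = posSquareEnergy G * (2 * q * D) + posSquareEnergy G * (4 * lam * E) := by
          ring
      _ < _ := add_lt_add_of_lt_of_le h7 h8
  have h9 : (2 * lam * M + E) ^ 2 = 4 * q * M ^ 2 + 4 * lam * M * E + E ^ 2 := by
    rw [← hl2]; ring
  have h10 : 0 ≤ E ^ 2 := sq_nonneg _
  linarith

end stars

/-- The inequality for all choices of sets of neighbours. -/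
theorem sets (G : SimpleGraph V) [DecidableRel G.Adj] (C : V → Finset V)
    (hC : ∀ u, C u ⊆ G.neighborFinset u) :
    2 * (∑ u, ((C u).card : ℝ)) ^ 2 ≤
      ((∑ u, ((C u).card : ℝ)) + ∑ u, (((C u).filter fun v => u ∈ C v).card : ℝ) +
        √((∑ u, ((C u).card : ℝ)) * ∑ u, ((C u).card : ℝ) ^ 2) +
        √((∑ u, ∑ v ∈ C u, ((C v).card : ℝ)) * ((Finset.univ.biUnion C).card : ℝ))) *
      posSquareEnergy G := by
  have hs0 : 0 ≤ posSquareEnergy G := Finset.sum_nonneg fun i _ => sq_nonneg _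
  set χ : V → V → ℝ := fun v t => if v ∈ C t then 1 else 0 with hχ
  have h01 : ∀ v t, χ v t = 0 ∨ χ v t = 1 := by
    intro v t
    simp only [hχ]
    split_ifs
    · right; rfl
    · left; rfl
  have hadj : ∀ v t, χ v t ≠ 0 → G.Adj v t := by
    intro v t h
    simp only [hχ] at h
    have h2 : v ∈ C t := by
      by_contra h3
      rw [if_neg h3] at h
      exact h rfl
    have h3 := hC t h2
    rw [SimpleGraph.mem_neighborFinset] at h3
    exact h3.symm
  have hcol : ∀ t, ∑ v, χ v t = (C t).card := by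
    intro t
    simp only [hχ, Finset.sum_boole]
    congr 2
    ext v
    simp
  have hM : ∑ u, ((C u).card : ℝ) = ∑ v, kk χ v := by
    simp only [kk]
    rw [Finset.sum_comm]
    exact Finset.sum_congr rfl fun t _ => (hcol t).symm
  have hJ : ∑ u, ((C u).card : ℝ) ^ 2 = ∑ t, (∑ v, χ v t) ^ 2 :=
    Finset.sum_congr rfl fun t _ => by rw [hcol t]
  have hMM : MM χ = ∑ u, (((C u).filter fun v => u ∈ C v).card : ℝ) := by
    unfold MM
    refine Finset.sum_congr rfl fun v _ => ?_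
    have h1 : ∀ w, χ w v * χ v w = if w ∈ (C v).filter (fun x => v ∈ C x) then 1 else 0 := by
      intro w
      simp only [hχ, Finset.mem_filter]
      by_cases h : w ∈ C v <;> by_cases h' : v ∈ C w <;> simp [h, h']
    simp only [h1, Finset.sum_boole]
    congr 2
    ext w
    simp
  have hL : ∑ v, kk χ v * ∑ w, χ w v = ∑ u, ∑ v ∈ C u, ((C v).card : ℝ) := by
    simp only [hcol, kk, Finset.sum_mul]
    rw [Finset.sum_comm]
    refine Finset.sum_congr rfl fun u _ => ?_
    simp only [hχ, ite_mul, one_mul, zero_mul]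
    rw [← Finset.sum_filter]
    refine Finset.sum_congr ?_ fun _ _ => rfl
    ext v
    simp
  have hN : ∑ w, (if kk χ w = 0 then (0 : ℝ) else 1) = ((Finset.univ.biUnion C).card : ℝ) := by
    have h1 : ∀ w, (if kk χ w = 0 then (0 : ℝ) else 1) =
        if w ∈ Finset.univ.biUnion C then 1 else 0 := by
      intro w
      have h2 : kk χ w = 0 ↔ w ∉ Finset.univ.biUnion C := by
        unfold kk
        rw [Finset.sum_eq_zero_iff_of_nonneg (fun t _ => chi_nonneg h01 w t)]
        simp [hχ]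
      by_cases h : w ∈ Finset.univ.biUnion C
      · rw [if_neg (by rw [h2]; exact not_not.2 h), if_pos h]
      · rw [if_pos (h2.2 h), if_neg h]
    simp only [h1, Finset.sum_boole]
    congr 2
    ext w
    simp
  have hR := RR_le h01
  rw [hL, hN] at hR
  have h := main_ineq G h01 hadj _ _ hM hJ
  rw [hMM] at h
  refine h.trans (mul_le_mul_of_nonneg_right ?_ hs0)
  linarith

/-- The inequality for bounded numbers of choices. -/
theorem bounded (G : SimpleGraph V) [DecidableRel G.Adj] (t : ℕ) (j : V → ℕ)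
    (hj : ∀ v, j v ≤ G.degree v) (hjt : ∀ v, j v ≤ t) :
    2 * (∑ v, (j v : ℝ)) ^ 2 ≤
      (2 * (∑ v, (j v : ℝ)) + √((∑ v, (j v : ℝ)) * ∑ v, (j v : ℝ) ^ 2) +
        √(t * Fintype.card V * ∑ v, (j v : ℝ))) * posSquareEnergy G := by
  have hs0 : 0 ≤ posSquareEnergy G := Finset.sum_nonneg fun i _ => sq_nonneg _
  have h1 : ∀ v, ∃ C : Finset V, C ⊆ G.neighborFinset v ∧ C.card = j v := fun v =>
    Finset.exists_subset_card_eq (by rw [SimpleGraph.card_neighborFinset_eq_degree]; exact hj v)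
  choose C hC hcard using h1
  have h := sets G C hC
  simp only [hcard] at h
  refine h.trans (mul_le_mul_of_nonneg_right ?_ hs0)
  have h2 : ∑ u, (((C u).filter fun v => u ∈ C v).card : ℝ) ≤ ∑ v, (j v : ℝ) := by
    refine Finset.sum_le_sum fun u _ => ?_
    rw [← hcard u]
    exact_mod_cast Finset.card_filter_le _ _
  have h3 : ∑ u, ∑ v ∈ C u, (j v : ℝ) ≤ t * ∑ v, (j v : ℝ) := by
    rw [Finset.mul_sum]
    refine Finset.sum_le_sum fun u _ => ?_
    calc ∑ v ∈ C u, (j v : ℝ) ≤ ∑ v ∈ C u, (t : ℝ) :=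
          Finset.sum_le_sum fun v _ => by exact_mod_cast hjt v
      _ = t * j u := by rw [Finset.sum_const, hcard u, nsmul_eq_mul, mul_comm]
  have h4 : ((Finset.univ.biUnion C).card : ℝ) ≤ Fintype.card V := by
    exact_mod_cast Finset.card_le_univ _
  have h5 : √((∑ u, ∑ v ∈ C u, (j v : ℝ)) * ((Finset.univ.biUnion C).card : ℝ)) ≤
      √(t * Fintype.card V * ∑ v, (j v : ℝ)) := by
    apply Real.sqrt_le_sqrt
    calc _ ≤ (t * ∑ v, (j v : ℝ)) * (Fintype.card V : ℝ) :=
          mul_le_mul h3 h4 (Nat.cast_nonneg _) (by positivity)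
      _ = _ := by ring
  linarith

/-- The inequality for minimum degree `t`. -/
theorem minDegree (G : SimpleGraph V) [DecidableRel G.Adj] (t : ℕ) (ht : ∀ v, t ≤ G.degree v) :
    2 * t * (Fintype.card V : ℝ) ≤ (3 + √t) * posSquareEnergy G := by
  have hs0 : 0 ≤ posSquareEnergy G := Finset.sum_nonneg fun i _ => sq_nonneg _
  have h := bounded G t (fun _ => t) ht (fun _ => le_rfl)
  simp only [Finset.sum_const, Finset.card_univ, nsmul_eq_mul] at h
  set n : ℝ := (Fintype.card V : ℝ) with hn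
  have hn0 : 0 ≤ n := by rw [hn]; exact Nat.cast_nonneg _
  have e1 : √(n * (t : ℝ) * (n * (t : ℝ) ^ 2)) = √t * (n * t) := by
    rw [show n * (t : ℝ) * (n * (t : ℝ) ^ 2) = t * (n * t) ^ 2 by ring,
      Real.sqrt_mul (Nat.cast_nonneg _), Real.sqrt_sq (by positivity)]
  have e2 : √((t : ℝ) * n * (n * t)) = n * t := by
    rw [show (t : ℝ) * n * (n * t) = (n * t) ^ 2 by ring, Real.sqrt_sq (by positivity)]
  rw [e1, e2] at h
  rcases (mul_nonneg hn0 (Nat.cast_nonneg t : (0 : ℝ) ≤ t)).eq_or_lt with h0 | h0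
  · calc 2 * t * n = 2 * (n * t) := by ring
      _ = 0 := by rw [← h0]; ring
      _ ≤ _ := by positivity
  · have h2 : (n * t) * (2 * t * n) ≤ (n * t) * ((3 + √t) * posSquareEnergy G) := by
      calc (n * t) * (2 * t * n) = 2 * (n * t) ^ 2 := by ring
        _ ≤ _ := h
        _ = _ := by ring
    exact le_of_mul_le_mul_left h2 h0

/-- The inequality for the edges between a set and its complement. -/
theorem cut (G : SimpleGraph V) [DecidableRel G.Adj] (t : ℕ) (Q : Finset V) :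
    2 * ∑ v ∈ Qᶜ, ((min t (G.neighborFinset v ∩ Q).card : ℕ) : ℝ) ≤
      (1 + √t) * posSquareEnergy G := by
  have hs0 : 0 ≤ posSquareEnergy G := Finset.sum_nonneg fun i _ => sq_nonneg _
  set r : V → ℕ := fun v => if v ∈ Q then 0 else min t (G.neighborFinset v ∩ Q).card with hr
  have h1 : ∀ v, ∃ C : Finset V, C ⊆ G.neighborFinset v ∩ Q ∧ C.card = r v := by
    intro v
    by_cases hv : v ∈ Q
    · exact ⟨∅, Finset.empty_subset _, by simp [hr, hv]⟩
    · simp only [hr, if_neg hv]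
      exact Finset.exists_subset_card_eq (min_le_right _ _)
  choose C hC hcard using h1
  have h := sets G C (fun u => (hC u).trans Finset.inter_subset_left)
  have hE : ∀ v ∈ Q, C v = ∅ := fun v hv => by
    rw [← Finset.card_eq_zero, hcard v]
    simp [hr, hv]
  have hsub : ∀ u, ∀ v ∈ C u, v ∈ Q := fun u v hv => (Finset.mem_inter.1 (hC u hv)).2
  have e1 : ∑ u, (((C u).filter fun v => u ∈ C v).card : ℝ) = 0 := by
    refine Finset.sum_eq_zero fun u _ => ?_
    have : (C u).filter (fun v => u ∈ C v) = ∅ := by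
      rw [Finset.filter_eq_empty_iff]
      intro v hv hu
      rw [hE v (hsub u v hv)] at hu
      exact absurd hu (Finset.notMem_empty _)
    rw [this]
    simp
  have e2 : ∑ u, ∑ v ∈ C u, ((C v).card : ℝ) = 0 := by
    refine Finset.sum_eq_zero fun u _ => Finset.sum_eq_zero fun v hv => ?_
    rw [hE v (hsub u v hv)]
    simp
  set M : ℝ := ∑ u, ((C u).card : ℝ) with hM
  have hM0 : 0 ≤ M := Finset.sum_nonneg fun u _ => Nat.cast_nonneg _
  have e3 : ∑ v ∈ Qᶜ, ((min t (G.neighborFinset v ∩ Q).card : ℕ) : ℝ) = M := by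
    rw [hM, ← Finset.sum_compl_add_sum Q]
    have h2 : ∑ u ∈ Q, ((C u).card : ℝ) = 0 :=
      Finset.sum_eq_zero fun u hu => by rw [hE u hu]; simp
    rw [h2, add_zero]
    refine Finset.sum_congr rfl fun v hv => ?_
    rw [hcard v]
    simp only [hr, if_neg (Finset.mem_compl.1 hv)]
  have hJ : ∑ u, ((C u).card : ℝ) ^ 2 ≤ t * M := by
    rw [hM, Finset.mul_sum]
    refine Finset.sum_le_sum fun u _ => ?_
    rw [pow_two]
    refine mul_le_mul_of_nonneg_right ?_ (Nat.cast_nonneg _)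
    rw [hcard u]
    have : r u ≤ t := by
      simp only [hr]
      split_ifs
      · exact Nat.zero_le _
      · exact min_le_left _ _
    exact_mod_cast this
  have e5 : √(M * ∑ u, ((C u).card : ℝ) ^ 2) ≤ √t * M := by
    calc √(M * ∑ u, ((C u).card : ℝ) ^ 2) ≤ √(t * M ^ 2) :=
          Real.sqrt_le_sqrt (by nlinarith [mul_le_mul_of_nonneg_left hJ hM0])
      _ = √t * M := by rw [Real.sqrt_mul (Nat.cast_nonneg _), Real.sqrt_sq hM0]
  rw [e1, e2, zero_mul, Real.sqrt_zero, add_zero, add_zero] at h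
  rw [e3]
  rcases hM0.eq_or_lt with h0 | h0
  · rw [← h0, mul_zero]
    positivity
  · have h2 : M * (2 * M) ≤ M * ((1 + √t) * posSquareEnergy G) := by
      calc M * (2 * M) = 2 * M ^ 2 := by ring
        _ ≤ _ := h
        _ ≤ (M + √t * M) * posSquareEnergy G :=
          mul_le_mul_of_nonneg_right (by linarith) hs0
        _ = _ := by ring
    exact le_of_mul_le_mul_left h2 h0

theorem sqrt_mul_le {x y c : ℝ} (hx : 0 ≤ x) (hy : 0 ≤ y) (hc : 0 < c) :
    √(x * y) ≤ (c * x + y / c) / 2 := by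
  rw [Real.sqrt_le_left (by positivity)]
  have h : ((c * x + y / c) / 2) ^ 2 = x * y + ((c * x - y / c) / 2) ^ 2 := by
    field_simp
    ring
  rw [h]
  have := sq_nonneg ((c * x - y / c) / 2)
  linarith

/-- The common part of the two criteria. -/
theorem criterion (G : SimpleGraph V) [DecidableRel G.Adj] (hn : 0 < Fintype.card V)
    {a b c e μ : ℝ} (hc : 0 < c) (he : 0 < e) (hμ : 0 < μ)
    (hJ : ∀ v : V, ((min 3 (G.degree v) : ℕ) : ℝ) ^ 2 ≤
      a * ((min 3 (G.degree v) : ℕ) : ℝ) - b)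
    (hM : μ * (Fintype.card V : ℝ) ≤ ∑ v, ((min 3 (G.degree v) : ℕ) : ℝ))
    (h1 : 0 < 2 * μ ^ 2 - (2 + (c + a / c) / 2 + e / 2) * μ - (3 / e - b / c) / 2)
    (h2 : 0 ≤ 4 * μ - (2 + (c + a / c) / 2 + e / 2)) :
    (Fintype.card V : ℝ) < posSquareEnergy G := by
  have h := bounded G 3 (fun v => min 3 (G.degree v)) (fun v => min_le_right _ _)
    (fun v => min_le_left _ _)
  set M : ℝ := ∑ v, ((min 3 (G.degree v) : ℕ) : ℝ) with hMdef
  set J : ℝ := ∑ v, ((min 3 (G.degree v) : ℕ) : ℝ) ^ 2 with hJdef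
  set n : ℝ := (Fintype.card V : ℝ) with hndef
  have hnp : 0 < n := by rw [hndef]; exact_mod_cast hn
  have hMp : 0 < M := (mul_pos hμ hnp).trans_le hM
  have hJ0 : 0 ≤ J := Finset.sum_nonneg fun v _ => sq_nonneg _
  have hJM : J ≤ a * M - b * n := by
    calc J ≤ ∑ v, (a * ((min 3 (G.degree v) : ℕ) : ℝ) - b) := Finset.sum_le_sum fun v _ => hJ v
      _ = a * M - b * n := by
        rw [Finset.sum_sub_distrib, ← Finset.mul_sum, ← hMdef]
        simp only [Finset.sum_const, Finset.card_univ, nsmul_eq_mul, ← hndef]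
        ring
  have k1 : √(M * J) ≤ (c * M + (a * M - b * n) / c) / 2 := by
    refine (sqrt_mul_le hMp.le hJ0 hc).trans ?_
    have := div_le_div_of_nonneg_right hJM hc.le
    linarith
  have k2 : √((3 : ℕ) * n * M) ≤ (e * M + 3 * n / e) / 2 := by
    rw [mul_comm]
    refine (sqrt_mul_le hMp.le (by positivity) he).trans (le_of_eq ?_)
    norm_num
  by_contra hcon
  push Not at hcon
  have k3 : 2 * M ^ 2 ≤ (2 * M + (c * M + (a * M - b * n) / c) / 2 +
      (e * M + 3 * n / e) / 2) * n := by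
    refine h.trans ?_
    have k4 : 0 ≤ 2 * M + √(M * J) + √((3 : ℕ) * n * M) := by positivity
    calc _ ≤ (2 * M + √(M * J) + √((3 : ℕ) * n * M)) * n :=
          mul_le_mul_of_nonneg_left hcon k4
      _ ≤ _ := mul_le_mul_of_nonneg_right (by linarith) hnp.le
  obtain ⟨d, hd⟩ : ∃ d : ℝ, M = μ * n + d := ⟨M - μ * n, by ring⟩
  have hd0 : 0 ≤ d := by linarith
  have k5 : 2 * M ^ 2 - (2 * M + (c * M + (a * M - b * n) / c) / 2 +
      (e * M + 3 * n / e) / 2) * n =
      (2 * μ ^ 2 - (2 + (c + a / c) / 2 + e / 2) * μ - (3 / e - b / c) / 2) * n ^ 2 +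
      (4 * μ - (2 + (c + a / c) / 2 + e / 2)) * (n * d) + 2 * d ^ 2 := by
    rw [hd]
    ring
  have k6 : 0 < (2 * μ ^ 2 - (2 + (c + a / c) / 2 + e / 2) * μ - (3 / e - b / c) / 2) * n ^ 2 :=
    mul_pos h1 (by positivity)
  have k7 : 0 ≤ (4 * μ - (2 + (c + a / c) / 2 + e / 2)) * (n * d) :=
    mul_nonneg h2 (by positivity)
  have k8 : 0 ≤ 2 * d ^ 2 := by positivity
  linarith

theorem leaves (G : SimpleGraph V) [DecidableRel G.Adj] (hn : 0 < Fintype.card V)
    (h1 : ∀ v, 1 ≤ G.degree v)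
    (h3 : 24 * Fintype.card V ≤ 10 * ∑ v, min 3 (G.degree v)) :
    (Fintype.card V : ℝ) < posSquareEnergy G := by
  refine criterion G hn (a := 4) (b := 3) (c := 5 / 3) (e := 9 / 8) (μ := 12 / 5)
    (by norm_num) (by norm_num) (by norm_num) (fun v => ?_) ?_ (by norm_num) (by norm_num)
  · have h5 : 1 ≤ min 3 (G.degree v) := le_min (by norm_num) (h1 v)
    have h6 : min 3 (G.degree v) ≤ 3 := min_le_left _ _
    have h5' : (1 : ℝ) ≤ ((min 3 (G.degree v) : ℕ) : ℝ) := by exact_mod_cast h5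
    have h6' : ((min 3 (G.degree v) : ℕ) : ℝ) ≤ 3 := by exact_mod_cast h6
    nlinarith [mul_nonneg (sub_nonneg.2 h5') (sub_nonneg.2 h6')]
  · have : ((24 * Fintype.card V : ℕ) : ℝ) ≤ ((10 * ∑ v, min 3 (G.degree v) : ℕ) : ℝ) := by
      exact_mod_cast h3
    push_cast at this ⊢
    linarith

theorem noLeaves (G : SimpleGraph V) [DecidableRel G.Adj] (hn : 0 < Fintype.card V)
    (h1 : ∀ v, 2 ≤ G.degree v)
    (h3 : 47 * Fintype.card V ≤ 20 * ∑ v, min 3 (G.degree v)) :
    (Fintype.card V : ℝ) < posSquareEnergy G := by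
  refine criterion G hn (a := 5) (b := 6) (c := 25 / 16) (e := 113 / 100) (μ := 47 / 20)
    (by norm_num) (by norm_num) (by norm_num) (fun v => ?_) ?_ (by norm_num) (by norm_num)
  · have h5 : 2 ≤ min 3 (G.degree v) := le_min (by norm_num) (h1 v)
    have h6 : min 3 (G.degree v) ≤ 3 := min_le_left _ _
    have h5' : (2 : ℝ) ≤ ((min 3 (G.degree v) : ℕ) : ℝ) := by exact_mod_cast h5
    have h6' : ((min 3 (G.degree v) : ℕ) : ℝ) ≤ 3 := by exact_mod_cast h6
    nlinarith [mul_nonneg (sub_nonneg.2 h5') (sub_nonneg.2 h6')]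
  · have : ((47 * Fintype.card V : ℕ) : ℝ) ≤ ((20 * ∑ v, min 3 (G.degree v) : ℕ) : ℝ) := by
      exact_mod_cast h3
    push_cast at this ⊢
    linarith

section weights

variable (G : SimpleGraph V) [DecidableRel G.Adj] (z : V → V → ℝ)

/-- The sum of the squares of the weights with which `v` is chosen. -/
noncomputable def BB (v : V) : ℝ := ∑ t, z v t ^ 2

/-- The inner product of the weights with which `v` and `w` are chosen. -/
noncomputable def DW (v w : V) : ℝ := ∑ t, z v t * z w t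

/-- The contribution of triangles. -/
noncomputable def TW (v : V) : ℝ := ∑ s, ∑ t, if G.Adj s t then z v s * z v t else 0

/-- The test vectors. -/
noncomputable def xw (lam : ℝ) (v t : V) : ℝ := (if t = v then lam * √(BB z v) else 0) + z v t

/-- The weighted sum of the numbers `√(B v / B w)`. -/
noncomputable def RW : ℝ := ∑ v, ∑ w, (√(BB z w))⁻¹ * (√(BB z v) * z w v ^ 2)

/-- The contribution of mutual choices. -/
noncomputable def MW : ℝ := ∑ v, ∑ w, z w v * z v w

/-- The contribution of common choices. -/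
noncomputable def ZT : ℝ := ∑ v, ∑ w, (√(BB z v))⁻¹ * (√(BB z w))⁻¹ * DW z v w ^ 2

theorem BB_nonneg (v : V) : 0 ≤ BB z v := Finset.sum_nonneg fun _ _ => sq_nonneg _

theorem DW_comm (v w : V) : DW z v w = DW z w v := by
  unfold DW
  exact Finset.sum_congr rfl fun _ _ => mul_comm _ _

theorem DW_self (v : V) : DW z v v = BB z v := by
  unfold DW BB
  exact Finset.sum_congr rfl fun _ _ => (pow_two _).symm

theorem inv_mul_BB (v : V) : (√(BB z v))⁻¹ * BB z v = √(BB z v) := by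
  rcases (BB_nonneg z v).eq_or_lt with h | h
  · rw [← h]; simp
  · have h2 : √(BB z v) * √(BB z v) = BB z v := Real.mul_self_sqrt (BB_nonneg z v)
    have h3 : √(BB z v) ≠ 0 := by positivity
    field_simp
    rw [pow_two, h2]

theorem inv_mul_sqrt_le (v : V) : (√(BB z v))⁻¹ * √(BB z v) ≤ 1 := by
  rcases (BB_nonneg z v).eq_or_lt with h | h
  · rw [← h]; simp
  · rw [inv_mul_cancel₀ (by positivity)]

theorem z_eq_zero {v : V} (h : BB z v = 0) (t : V) : z v t = 0 := by
  have := (Finset.sum_eq_zero_iff_of_nonneg (fun t _ => sq_nonneg (z v t))).1 h t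
    (Finset.mem_univ t)
  exact pow_eq_zero_iff (two_ne_zero) |>.1 this

theorem innerW_eq (lam : ℝ) (v w : V) : ∑ t, xw z lam v t * xw z lam w t =
    (if v = w then lam ^ 2 * BB z v else 0) +
      (lam * (√(BB z v) * z w v + √(BB z w) * z v w) + DW z v w) := by
  have h : ∀ t, xw z lam v t * xw z lam w t =
      (if t = v then (if t = w then (lam * √(BB z v)) * (lam * √(BB z w)) else 0) else 0) +
      ((if t = v then lam * √(BB z v) * z w t else 0) +
        (if t = w then lam * √(BB z w) * z v t else 0) + z v t * z w t) := by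
    intro t
    unfold xw
    split_ifs <;> ring
  simp only [h, Finset.sum_add_distrib, Finset.sum_ite_eq', Finset.mem_univ, if_true, DW]
  have h2 : (if v = w then (lam * √(BB z v)) * (lam * √(BB z w)) else 0) =
      (if v = w then lam ^ 2 * BB z v else 0) := by
    split_ifs with hvw
    · subst hvw
      have := Real.mul_self_sqrt (BB_nonneg z v)
      calc lam * √(BB z v) * (lam * √(BB z v)) = lam ^ 2 * (√(BB z v) * √(BB z v)) := by ring
        _ = _ := by rw [this]
    · rfl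
  rw [h2]
  ring

variable {z} (hz : ∀ v t, 0 ≤ z v t) (hadj : ∀ v t, z v t ≠ 0 → G.Adj v t)

include hz in
theorem DW_nonneg (v w : V) : 0 ≤ DW z v w :=
  Finset.sum_nonneg fun t _ => mul_nonneg (hz v t) (hz w t)

include hz in
theorem TW_nonneg (v : V) : 0 ≤ TW G z v :=
  Finset.sum_nonneg fun s _ => Finset.sum_nonneg fun t _ => by
    split_ifs
    · exact mul_nonneg (hz v s) (hz v t)
    · exact le_rfl

include hadj in
theorem numW_eq (lam : ℝ) :
    ∑ v, (√(BB z v))⁻¹ * ∑ s, ∑ t, (if G.Adj s t then xw z lam v s * xw z lam v t else 0) =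
      2 * lam * ∑ v, ∑ t, z v t + ∑ v, (√(BB z v))⁻¹ * TW G z v := by
  rw [Finset.mul_sum, ← Finset.sum_add_distrib]
  refine Finset.sum_congr rfl fun v _ => ?_
  have hA : ∀ t, (if G.Adj v t then z v t else 0) = z v t := by
    intro t
    split_ifs with h
    · rfl
    · by_contra h2
      exact h (hadj v t (fun h3 => h2 h3.symm))
  have h : ∀ s t, (if G.Adj s t then xw z lam v s * xw z lam v t else 0) =
      (if s = v then (lam * √(BB z v)) * (if G.Adj v t then z v t else 0) else 0) +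
      (if t = v then (lam * √(BB z v)) * (if G.Adj v s then z v s else 0) else 0) +
      (if G.Adj s t then z v s * z v t else 0) := by
    intro s t
    unfold xw
    by_cases hs : s = v
    · subst hs
      by_cases ht : t = s
      · subst ht
        simp
      · simp only [ht, if_true, if_false]
        split_ifs <;> ring
    · by_cases ht : t = v
      · subst ht
        simp only [hs, if_true, if_false, G.adj_comm t s]
        split_ifs <;> ring
      · simp only [hs, ht, if_false]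
        split_ifs <;> ring
  simp only [h, hA, Finset.sum_add_distrib, Finset.sum_ite_eq', Finset.mem_univ, if_true]
  have h1 : ∑ s, ∑ t, (if s = v then (lam * √(BB z v)) * z v t else 0) =
      lam * √(BB z v) * ∑ t, z v t := by
    rw [Finset.sum_comm]
    simp [Finset.mul_sum]
  rw [h1, ← Finset.mul_sum]
  have h2 : (√(BB z v))⁻¹ * √(BB z v) * ∑ t, z v t = ∑ t, z v t := by
    rcases (BB_nonneg z v).eq_or_lt with h | h
    · have : ∑ t, z v t = 0 := Finset.sum_eq_zero fun t _ => z_eq_zero z h.symm t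
      rw [this]; simp
    · rw [inv_mul_cancel₀ (by positivity), one_mul]
  change (√(BB z v))⁻¹ * (lam * √(BB z v) * (∑ t, z v t) + lam * √(BB z v) * (∑ t, z v t) +
    TW G z v) = _
  calc _ = 2 * lam * ((√(BB z v))⁻¹ * √(BB z v) * ∑ t, z v t) + (√(BB z v))⁻¹ * TW G z v := by
        ring
    _ = _ := by rw [h2]

include hz hadj in
theorem termW_le {lam : ℝ} (hl : 0 ≤ lam) (v w : V) :
    (√(BB z v))⁻¹ * (√(BB z w))⁻¹ * (∑ t, xw z lam v t * xw z lam w t) ^ 2 ≤
      (if v = w then BB z v * (lam ^ 4 + 2 * lam ^ 2) else 0) +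
      lam ^ 2 * ((√(BB z w))⁻¹ * (√(BB z v) * z w v ^ 2)) +
      lam ^ 2 * ((√(BB z v))⁻¹ * (√(BB z w) * z v w ^ 2)) + 2 * lam ^ 2 * (z w v * z v w) +
      2 * lam * ((√(BB z w))⁻¹ * (z w v * DW z w v)) +
      2 * lam * ((√(BB z v))⁻¹ * (z v w * DW z v w)) +
      (√(BB z v))⁻¹ * (√(BB z w))⁻¹ * DW z v w ^ 2 := by
  have hloop : ∀ u, z u u = 0 := fun u => by
    by_contra h
    exact (hadj u u h).ne rfl
  rw [innerW_eq z lam v w]
  have hk := BB_nonneg z v
  have hk' := BB_nonneg z w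
  by_cases hvw : v = w
  · subst hvw
    simp only [if_true, hloop, mul_zero, zero_mul, add_zero, DW_self, zero_add]
    have h2 := inv_mul_BB z v
    have h3 : √(BB z v) * √(BB z v) = BB z v := Real.mul_self_sqrt hk
    have h4 : (√(BB z v))⁻¹ * (√(BB z v))⁻¹ * (lam ^ 2 * BB z v + BB z v) ^ 2 =
        BB z v * (lam ^ 2 + 1) ^ 2 := by
      calc _ = ((√(BB z v))⁻¹ * BB z v) * ((√(BB z v))⁻¹ * BB z v) * (lam ^ 2 + 1) ^ 2 := by ring
        _ = _ := by rw [h2, h3]
    have h5 : (√(BB z v))⁻¹ * (√(BB z v))⁻¹ * BB z v ^ 2 = BB z v := by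
      calc _ = ((√(BB z v))⁻¹ * BB z v) * ((√(BB z v))⁻¹ * BB z v) := by ring
        _ = _ := by rw [h2, h3]
    rw [h4, h5]
    apply le_of_eq
    ring
  · simp only [if_neg hvw, zero_add]
    rw [DW_comm z w v]
    have hD0 := DW_nonneg hz v w
    have c1 : 0 ≤ (√(BB z v))⁻¹ := by positivity
    have c2 : 0 ≤ (√(BB z w))⁻¹ := by positivity
    have m1 := inv_mul_sqrt_le z v
    have m2 := inv_mul_sqrt_le z w
    have k1 := inv_mul_BB z v
    have k2 := inv_mul_BB z w
    have s1 := Real.mul_self_sqrt hk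
    have s2 := Real.mul_self_sqrt hk'
    have x1 := hz w v
    have x2 := hz v w
    -- the square
    have e1 : (√(BB z v))⁻¹ * (√(BB z w))⁻¹ *
        (lam * (√(BB z v) * z w v + √(BB z w) * z v w) + DW z v w) ^ 2 =
        lam ^ 2 * ((√(BB z w))⁻¹ * (((√(BB z v))⁻¹ * (√(BB z v) * √(BB z v))) * z w v ^ 2)) +
        lam ^ 2 * ((√(BB z v))⁻¹ * (((√(BB z w))⁻¹ * (√(BB z w) * √(BB z w))) * z v w ^ 2)) +
        2 * lam ^ 2 * (((√(BB z v))⁻¹ * √(BB z v)) * ((√(BB z w))⁻¹ * √(BB z w)) *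
          (z w v * z v w)) +
        2 * lam * (((√(BB z v))⁻¹ * √(BB z v)) * ((√(BB z w))⁻¹ * (z w v * DW z v w))) +
        2 * lam * (((√(BB z w))⁻¹ * √(BB z w)) * ((√(BB z v))⁻¹ * (z v w * DW z v w))) +
        (√(BB z v))⁻¹ * (√(BB z w))⁻¹ * DW z v w ^ 2 := by ring
    rw [e1, s1, s2, k1, k2]
    have m1' : 0 ≤ (√(BB z v))⁻¹ * √(BB z v) := mul_nonneg c1 (Real.sqrt_nonneg _)
    have m2' : 0 ≤ (√(BB z w))⁻¹ * √(BB z w) := mul_nonneg c2 (Real.sqrt_nonneg _)
    have b3 : 2 * lam ^ 2 * (((√(BB z v))⁻¹ * √(BB z v)) * ((√(BB z w))⁻¹ * √(BB z w)) *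
          (z w v * z v w)) ≤ 2 * lam ^ 2 * (z w v * z v w) := by
      refine mul_le_mul_of_nonneg_left ?_ (by positivity)
      calc ((√(BB z v))⁻¹ * √(BB z v)) * ((√(BB z w))⁻¹ * √(BB z w)) * (z w v * z v w)
          ≤ 1 * (z w v * z v w) :=
            mul_le_mul_of_nonneg_right (mul_le_one₀ m1 m2' m2) (mul_nonneg x1 x2)
        _ = z w v * z v w := one_mul _
    have b4 : 2 * lam * (((√(BB z v))⁻¹ * √(BB z v)) * ((√(BB z w))⁻¹ * (z w v * DW z v w))) ≤
        2 * lam * ((√(BB z w))⁻¹ * (z w v * DW z v w)) :=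
      mul_le_mul_of_nonneg_left
        (mul_le_of_le_one_left (mul_nonneg c2 (mul_nonneg x1 hD0)) m1) (by positivity)
    have b5 : 2 * lam * (((√(BB z w))⁻¹ * √(BB z w)) * ((√(BB z v))⁻¹ * (z v w * DW z v w))) ≤
        2 * lam * ((√(BB z v))⁻¹ * (z v w * DW z v w)) :=
      mul_le_mul_of_nonneg_left
        (mul_le_of_le_one_left (mul_nonneg c1 (mul_nonneg x2 hD0)) m2) (by positivity)
    linarith

include hz hadj in
theorem sum_z_DW_le {ζ : ℝ} (hζ : ∀ v t, z v t ≤ ζ) (w : V) :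
    ∑ v, z w v * DW z w v ≤ ζ * TW G z w := by
  unfold DW TW
  rw [Finset.mul_sum]
  refine Finset.sum_le_sum fun v _ => ?_
  rw [Finset.mul_sum, Finset.mul_sum]
  refine Finset.sum_le_sum fun t _ => ?_
  have x1 := hz w v
  have x2 := hz w t
  split_ifs with h
  · calc z w v * (z w t * z v t) = z w v * z w t * z v t := by ring
      _ ≤ z w v * z w t * ζ := mul_le_mul_of_nonneg_left (hζ v t) (mul_nonneg x1 x2)
      _ = _ := by ring
  · have h0 : z v t = 0 := by
      by_contra h2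
      exact h (hadj v t h2)
    rw [h0]
    simp

include hz hadj in
theorem denW_le {lam ζ : ℝ} (hl : 0 ≤ lam) (hζ : ∀ v t, z v t ≤ ζ) :
    ∑ v, ∑ w, (√(BB z v))⁻¹ * (√(BB z w))⁻¹ * (∑ t, xw z lam v t * xw z lam w t) ^ 2 ≤
      (lam ^ 4 + 2 * lam ^ 2) * (∑ v, BB z v) + 2 * lam ^ 2 * RW z + 2 * lam ^ 2 * MW z +
      4 * lam * ζ * (∑ v, (√(BB z v))⁻¹ * TW G z v) + ZT z := by
  have h1 : ∑ v, ∑ w, (√(BB z v))⁻¹ * (√(BB z w))⁻¹ *
      (∑ t, xw z lam v t * xw z lam w t) ^ 2 ≤ ∑ v, ∑ w,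
      ((if v = w then BB z v * (lam ^ 4 + 2 * lam ^ 2) else 0) +
      lam ^ 2 * ((√(BB z w))⁻¹ * (√(BB z v) * z w v ^ 2)) +
      lam ^ 2 * ((√(BB z v))⁻¹ * (√(BB z w) * z v w ^ 2)) + 2 * lam ^ 2 * (z w v * z v w) +
      2 * lam * ((√(BB z w))⁻¹ * (z w v * DW z w v)) +
      2 * lam * ((√(BB z v))⁻¹ * (z v w * DW z v w)) +
      (√(BB z v))⁻¹ * (√(BB z w))⁻¹ * DW z v w ^ 2) :=
    Finset.sum_le_sum fun v _ => Finset.sum_le_sum fun w _ => termW_le G hz hadj hl v w
  refine h1.trans ?_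
  simp only [Finset.sum_add_distrib]
  have e0 : ∑ v, ∑ w, (if v = w then BB z v * (lam ^ 4 + 2 * lam ^ 2) else 0) =
      (lam ^ 4 + 2 * lam ^ 2) * ∑ v, BB z v := by
    simp only [Finset.sum_ite_eq, Finset.mem_univ, if_true, Finset.mul_sum]
    exact Finset.sum_congr rfl fun v _ => mul_comm _ _
  have e1 : ∑ v, ∑ w, lam ^ 2 * ((√(BB z w))⁻¹ * (√(BB z v) * z w v ^ 2)) =
      lam ^ 2 * RW z := by
    simp only [RW, Finset.mul_sum]
  have e2 : ∑ v, ∑ w, lam ^ 2 * ((√(BB z v))⁻¹ * (√(BB z w) * z v w ^ 2)) =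
      lam ^ 2 * RW z := by
    rw [Finset.sum_comm]
    simp only [RW, Finset.mul_sum]
  have e3 : ∑ v, ∑ w, 2 * lam ^ 2 * (z w v * z v w) = 2 * lam ^ 2 * MW z := by
    simp only [MW, Finset.mul_sum]
  have e5 : ∑ v, ∑ w, 2 * lam * ((√(BB z v))⁻¹ * (z v w * DW z v w)) ≤
      2 * lam * ζ * ∑ v, (√(BB z v))⁻¹ * TW G z v := by
    simp only [← Finset.mul_sum]
    rw [mul_assoc (2 * lam) ζ]
    refine mul_le_mul_of_nonneg_left ?_ (by positivity)
    rw [Finset.mul_sum]
    refine Finset.sum_le_sum fun v _ => ?_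
    calc (√(BB z v))⁻¹ * ∑ w, z v w * DW z v w ≤ (√(BB z v))⁻¹ * (ζ * TW G z v) :=
          mul_le_mul_of_nonneg_left (sum_z_DW_le G hz hadj hζ v) (by positivity)
      _ = _ := by ring
  have e4 : ∑ v, ∑ w, 2 * lam * ((√(BB z w))⁻¹ * (z w v * DW z w v)) ≤
      2 * lam * ζ * ∑ v, (√(BB z v))⁻¹ * TW G z v := by
    rw [Finset.sum_comm]
    exact e5
  have e6 : ∑ v, ∑ w, (√(BB z v))⁻¹ * (√(BB z w))⁻¹ * DW z v w ^ 2 = ZT z := rfl
  rw [e0, e1, e2, e3, e6]
  linarith

include hz hadj in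
/-- The inequality with real weights. -/
theorem weighted {lam ζ : ℝ} (hl : 0 ≤ lam) (hζ : ∀ v t, z v t ≤ ζ) (hlζ : 2 * lam * ζ ≤ 1) :
    4 * lam * (∑ v, ∑ t, z v t) - (lam ^ 4 + 2 * lam ^ 2) * (∑ v, BB z v) -
      2 * lam ^ 2 * RW z - 2 * lam ^ 2 * MW z - ZT z ≤ posSquareEnergy G := by
  have hs0 : 0 ≤ posSquareEnergy G := Finset.sum_nonneg fun i _ => sq_nonneg _
  set M : ℝ := ∑ v, ∑ t, z v t with hM
  have hM0 : 0 ≤ M := Finset.sum_nonneg fun v _ => Finset.sum_nonneg fun t _ => hz v t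
  set E : ℝ := ∑ v, (√(BB z v))⁻¹ * TW G z v with hE
  have hE0 : 0 ≤ E := Finset.sum_nonneg fun v _ => mul_nonneg (by positivity) (TW_nonneg G hz v)
  have hnum := numW_eq G hadj lam
  have hden := denW_le G hz hadj hl hζ
  rw [← hM, ← hE] at hnum
  rw [← hE] at hden
  have ht := test G (fun v => (√(BB z v))⁻¹) (fun v => by positivity)
    (fun v t => xw z lam v t) (by rw [hnum]; positivity)
  rw [hnum] at ht
  set den : ℝ := ∑ v, ∑ w, (√(BB z v))⁻¹ * (√(BB z w))⁻¹ *
    (∑ t, xw z lam v t * xw z lam w t) ^ 2 with hdendef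
  have hden0 : 0 ≤ den := Finset.sum_nonneg fun v _ => Finset.sum_nonneg fun w _ => by positivity
  have h1 : 2 * (2 * lam * M + E) - den ≤ posSquareEnergy G := by
    rcases hden0.eq_or_lt with h | h
    · rw [← h, mul_zero] at ht
      have h2 : 2 * lam * M + E = 0 := by
        have := le_antisymm ht (sq_nonneg _)
        exact pow_eq_zero_iff (two_ne_zero) |>.1 this
      rw [h2, ← h]
      simpa using hs0
    · by_contra hcon
      push Not at hcon
      have h2 : posSquareEnergy G * den < (2 * (2 * lam * M + E) - den) * den :=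
        mul_lt_mul_of_pos_right hcon h
      have h3 : (2 * (2 * lam * M + E) - den) * den =
          (2 * lam * M + E) ^ 2 - (2 * lam * M + E - den) ^ 2 := by ring
      have h4 := sq_nonneg (2 * lam * M + E - den)
      linarith
  have h5 : 4 * lam * ζ * E ≤ 2 * E := by
    have := mul_le_mul_of_nonneg_right hlζ hE0
    linarith
  linarith

include hz in
theorem RW_le {κ : V → ℝ} (hκ : ∀ w, 0 < κ w) :
    2 * RW z ≤ ∑ w, (κ w)⁻¹ + ∑ v, BB z v * ∑ w, κ w * z w v ^ 2 := by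
  have h1 : ∀ v w, 2 * ((√(BB z w))⁻¹ * (√(BB z v) * z w v ^ 2)) ≤
      (κ w)⁻¹ * ((√(BB z w))⁻¹ ^ 2 * z w v ^ 2) + BB z v * (κ w * z w v ^ 2) := by
    intro v w
    have h2 : 2 * ((√(BB z w))⁻¹ * √(BB z v)) ≤
        (κ w)⁻¹ * (√(BB z w))⁻¹ ^ 2 + κ w * √(BB z v) ^ 2 := by
      have h3 : (κ w)⁻¹ * (√(BB z w))⁻¹ ^ 2 + κ w * √(BB z v) ^ 2 -
          2 * ((√(BB z w))⁻¹ * √(BB z v)) =
          κ w * (√(BB z v) - (κ w)⁻¹ * (√(BB z w))⁻¹) ^ 2 := by
        have h4 : κ w * (κ w)⁻¹ = 1 := mul_inv_cancel₀ (hκ w).ne'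
        have h5 : κ w * (√(BB z v) - (κ w)⁻¹ * (√(BB z w))⁻¹) ^ 2 =
            κ w * √(BB z v) ^ 2 - 2 * (κ w * (κ w)⁻¹) * (√(BB z w))⁻¹ * √(BB z v) +
              (κ w * (κ w)⁻¹) * (κ w)⁻¹ * (√(BB z w))⁻¹ ^ 2 := by ring
        rw [h5, h4]
        ring
      have h6 : 0 ≤ κ w * (√(BB z v) - (κ w)⁻¹ * (√(BB z w))⁻¹) ^ 2 :=
        mul_nonneg (hκ w).le (sq_nonneg _)
      linarith
    rw [Real.sq_sqrt (BB_nonneg z v)] at h2
    have h7 := mul_le_mul_of_nonneg_right h2 (sq_nonneg (z w v))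
    calc 2 * ((√(BB z w))⁻¹ * (√(BB z v) * z w v ^ 2)) =
          2 * ((√(BB z w))⁻¹ * √(BB z v)) * z w v ^ 2 := by ring
      _ ≤ _ := h7
      _ = _ := by ring
  have h2 : 2 * RW z ≤ ∑ v, ∑ w,
      ((κ w)⁻¹ * ((√(BB z w))⁻¹ ^ 2 * z w v ^ 2) + BB z v * (κ w * z w v ^ 2)) := by
    unfold RW
    rw [Finset.mul_sum]
    refine Finset.sum_le_sum fun v _ => ?_
    rw [Finset.mul_sum]
    exact Finset.sum_le_sum fun w _ => h1 v w
  refine h2.trans ?_
  simp only [Finset.sum_add_distrib]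
  refine add_le_add ?_ (le_of_eq ?_)
  · rw [Finset.sum_comm]
    refine Finset.sum_le_sum fun w _ => ?_
    rw [← Finset.mul_sum, ← Finset.mul_sum]
    have h3 : (√(BB z w))⁻¹ ^ 2 * ∑ v, z w v ^ 2 ≤ 1 := by
      change (√(BB z w))⁻¹ ^ 2 * BB z w ≤ 1
      calc (√(BB z w))⁻¹ ^ 2 * BB z w = (√(BB z w))⁻¹ * ((√(BB z w))⁻¹ * BB z w) := by ring
        _ = (√(BB z w))⁻¹ * √(BB z w) := by rw [inv_mul_BB]
        _ ≤ 1 := inv_mul_sqrt_le z w
    calc (κ w)⁻¹ * ((√(BB z w))⁻¹ ^ 2 * ∑ v, z w v ^ 2) ≤ (κ w)⁻¹ * 1 :=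
          mul_le_mul_of_nonneg_left h3 (inv_nonneg.2 (hκ w).le)
      _ = _ := mul_one _
  · simp only [Finset.mul_sum]

/-- The normalised inner product. -/
noncomputable def rho (z : V → V → ℝ) (v w : V) : ℝ :=
  (√(BB z v))⁻¹ * (√(BB z w))⁻¹ * DW z v w

theorem rho_comm (v w : V) : rho z v w = rho z w v := by
  unfold rho
  rw [DW_comm]
  ring

include hz in
theorem rho_nonneg (v w : V) : 0 ≤ rho z v w :=
  mul_nonneg (by positivity) (DW_nonneg hz v w)

theorem rho_le_one (v w : V) : rho z v w ≤ 1 := by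
  have h1 : DW z v w ≤ √(BB z v) * √(BB z w) := by
    rw [← Real.sqrt_mul (BB_nonneg z v)]
    apply Real.le_sqrt_of_sq_le
    exact Finset.sum_mul_sq_le_sq_mul_sq Finset.univ (fun t => z v t) (fun t => z w t)
  have c1 : 0 ≤ (√(BB z v))⁻¹ := by positivity
  have c2 : 0 ≤ (√(BB z w))⁻¹ := by positivity
  have m1 := inv_mul_sqrt_le z v
  have m2 := inv_mul_sqrt_le z w
  have m2' : 0 ≤ (√(BB z w))⁻¹ * √(BB z w) := mul_nonneg c2 (Real.sqrt_nonneg _)
  calc rho z v w ≤ (√(BB z v))⁻¹ * (√(BB z w))⁻¹ * (√(BB z v) * √(BB z w)) :=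
        mul_le_mul_of_nonneg_left h1 (mul_nonneg c1 c2)
    _ = ((√(BB z v))⁻¹ * √(BB z v)) * ((√(BB z w))⁻¹ * √(BB z w)) := by ring
    _ ≤ 1 := mul_le_one₀ m1 m2' m2

/-- The part of `ZT` which belongs to the choices of `u`. -/
noncomputable def part (z : V → V → ℝ) (u : V) : ℝ :=
  ∑ v, ∑ w, rho z v w * (z v u * z w u)

theorem ZT_eq : ZT z = ∑ u, part z u := by
  unfold ZT part
  have h1 : ∀ v w, (√(BB z v))⁻¹ * (√(BB z w))⁻¹ * DW z v w ^ 2 =
      ∑ u, rho z v w * (z v u * z w u) := by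
    intro v w
    rw [← Finset.mul_sum]
    change _ = rho z v w * DW z v w
    unfold rho
    ring
  simp only [h1]
  have h2 : ∀ v, ∑ w, ∑ u, rho z v w * (z v u * z w u) =
      ∑ u, ∑ w, rho z v w * (z v u * z w u) := fun v => Finset.sum_comm
  simp only [h2]
  exact Finset.sum_comm

include hz in
theorem part_le (u : V) : part z u ≤ (∑ v, z v u) ^ 2 := by
  unfold part
  rw [pow_two, Finset.sum_mul_sum]
  exact Finset.sum_le_sum fun v _ => Finset.sum_le_sum fun w _ =>
    mul_le_of_le_one_left (mul_nonneg (hz v u) (hz w u)) (rho_le_one v w)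

end weights

section threads

variable (Q : Finset V) (S : V → Finset V) (a b c : ℝ)

/-- The weight with which `u` chooses `v`, provided that it chooses `v`. -/
noncomputable def wt (u v : V) : ℝ := if u ∈ Q then c else if v ∈ Q then a else b

/-- The weights. -/
noncomputable def zz (v u : V) : ℝ := if v ∈ S u then wt Q a b c u v else 0

variable {Q S a b c}

theorem sum_split (F : V → ℝ) : ∑ v, F v = ∑ v ∈ Q, F v + ∑ v ∈ Qᶜ, F v :=
  (Finset.sum_add_sum_compl Q F).symm

theorem sumQ (f : ℝ → ℝ) (f0 : f 0 = 0) (u : V) :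
    ∑ v ∈ Q, f (zz Q S a b c v u) = ((S u ∩ Q).card : ℝ) * f (if u ∈ Q then c else a) := by
  have h : ∀ v ∈ Q, f (zz Q S a b c v u) =
      if v ∈ S u then f (if u ∈ Q then c else a) else 0 := by
    intro v hv
    unfold zz wt
    split_ifs <;> simp_all
  rw [Finset.sum_congr rfl h, ← Finset.sum_filter, Finset.sum_const, nsmul_eq_mul]
  congr 3
  ext v
  simp [and_comm]

theorem sumD (f : ℝ → ℝ) (f0 : f 0 = 0) (u : V) :
    ∑ v ∈ Qᶜ, f (zz Q S a b c v u) = ((S u \ Q).card : ℝ) * f (if u ∈ Q then c else b) := by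
  have h : ∀ v ∈ Qᶜ, f (zz Q S a b c v u) =
      if v ∈ S u then f (if u ∈ Q then c else b) else 0 := by
    intro v hv
    rw [Finset.mem_compl] at hv
    unfold zz wt
    split_ifs <;> simp_all
  rw [Finset.sum_congr rfl h, ← Finset.sum_filter, Finset.sum_const, nsmul_eq_mul]
  congr 3
  ext v
  simp [and_comm]

theorem totQ (f : ℝ → ℝ) (f0 : f 0 = 0) :
    ∑ v ∈ Q, ∑ t, f (zz Q S a b c v t) =
      f c * (∑ u ∈ Q, ((S u ∩ Q).card : ℝ)) + f a * ∑ u ∈ Qᶜ, ((S u ∩ Q).card : ℝ) := by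
  rw [Finset.sum_comm]
  simp only [sumQ f f0]
  rw [sum_split (Q := Q)]
  congr 1
  · rw [Finset.mul_sum]
    exact Finset.sum_congr rfl fun u hu => by rw [if_pos hu, mul_comm]
  · rw [Finset.mul_sum]
    exact Finset.sum_congr rfl fun u hu => by rw [if_neg (Finset.mem_compl.1 hu), mul_comm]

theorem totD (f : ℝ → ℝ) (f0 : f 0 = 0) :
    ∑ v ∈ Qᶜ, ∑ t, f (zz Q S a b c v t) =
      f c * (∑ u ∈ Q, ((S u \ Q).card : ℝ)) + f b * ∑ u ∈ Qᶜ, ((S u \ Q).card : ℝ) := by
  rw [Finset.sum_comm]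
  simp only [sumD f f0]
  rw [sum_split (Q := Q)]
  congr 1
  · rw [Finset.mul_sum]
    exact Finset.sum_congr rfl fun u hu => by rw [if_pos hu, mul_comm]
  · rw [Finset.mul_sum]
    exact Finset.sum_congr rfl fun u hu => by rw [if_neg (Finset.mem_compl.1 hu), mul_comm]

variable (ha : 0 < a) (hb : 0 < b) (hc : 0 < c)

include ha hb hc in
theorem wt_pos (u v : V) : 0 < wt Q a b c u v := by
  unfold wt
  split_ifs <;> assumption

include ha hb hc in
theorem zz_nonneg (v u : V) : 0 ≤ zz Q S a b c v u := by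
  unfold zz
  split_ifs
  · exact (wt_pos ha hb hc u v).le
  · exact le_rfl

include ha hb hc in
theorem zz_le_wt (v u : V) : zz Q S a b c v u ≤ wt Q a b c u v := by
  unfold zz
  split_ifs
  · exact le_rfl
  · exact (wt_pos ha hb hc u v).le

include ha hb hc in
theorem MW_le : MW (zz Q S a b c) ≤ c ^ 2 * (∑ u ∈ Q, ((S u ∩ Q).card : ℝ)) +
    2 * (a * c) * (∑ u ∈ Q, ((S u \ Q).card : ℝ)) +
    b ^ 2 * ∑ u ∈ Qᶜ, ((S u \ Q).card : ℝ) := by
  have hz := zz_nonneg (Q := Q) (S := S) ha hb hc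
  have hw := zz_le_wt (Q := Q) (S := S) ha hb hc
  have h1 : ∀ v ∈ Q, ∑ w, zz Q S a b c w v * zz Q S a b c v w ≤
      c * (((S v ∩ Q).card : ℝ) * c) + a * (((S v \ Q).card : ℝ) * c) := by
    intro v hv
    have e1 := sumQ (Q := Q) (S := S) (a := a) (b := b) (c := c) (fun x => x) rfl v
    have e2 := sumD (Q := Q) (S := S) (a := a) (b := b) (c := c) (fun x => x) rfl v
    simp only [if_pos hv] at e1 e2
    rw [sum_split (Q := Q), ← e1, ← e2, Finset.mul_sum, Finset.mul_sum]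
    refine add_le_add (Finset.sum_le_sum fun w hw' => ?_) (Finset.sum_le_sum fun w hw' => ?_)
    · have h2 := hw v w
      rw [wt, if_pos hw'] at h2
      calc zz Q S a b c w v * zz Q S a b c v w ≤ zz Q S a b c w v * c :=
            mul_le_mul_of_nonneg_left h2 (hz w v)
        _ = _ := mul_comm _ _
    · have h2 := hw v w
      rw [wt, if_neg (Finset.mem_compl.1 hw'), if_pos hv] at h2
      calc zz Q S a b c w v * zz Q S a b c v w ≤ zz Q S a b c w v * a :=
            mul_le_mul_of_nonneg_left h2 (hz w v)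
        _ = _ := mul_comm _ _
  have h2 : ∀ v ∈ Qᶜ, ∑ w, zz Q S a b c w v * zz Q S a b c v w ≤
      a * (∑ w ∈ Q, zz Q S a b c v w) + b * (((S v \ Q).card : ℝ) * b) := by
    intro v hv
    have hv' := Finset.mem_compl.1 hv
    have e2 := sumD (Q := Q) (S := S) (a := a) (b := b) (c := c) (fun x => x) rfl v
    simp only [if_neg hv'] at e2
    rw [sum_split (Q := Q), ← e2, Finset.mul_sum, Finset.mul_sum]
    refine add_le_add (Finset.sum_le_sum fun w hw' => ?_) (Finset.sum_le_sum fun w hw' => ?_)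
    · have h2 := hw w v
      rw [wt, if_neg hv', if_pos hw'] at h2
      exact mul_le_mul_of_nonneg_right h2 (hz v w)
    · have h2 := hw v w
      rw [wt, if_neg (Finset.mem_compl.1 hw'), if_neg hv'] at h2
      calc zz Q S a b c w v * zz Q S a b c v w ≤ zz Q S a b c w v * b :=
            mul_le_mul_of_nonneg_left h2 (hz w v)
        _ = _ := mul_comm _ _
  unfold MW
  rw [sum_split (Q := Q)]
  have h3 : ∑ v ∈ Qᶜ, ∑ w ∈ Q, zz Q S a b c v w = ∑ w ∈ Q, ((S w \ Q).card : ℝ) * c := by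
    rw [Finset.sum_comm]
    refine Finset.sum_congr rfl fun w hw' => ?_
    have e2 := sumD (Q := Q) (S := S) (a := a) (b := b) (c := c) (fun x => x) rfl w
    simp only [if_pos hw'] at e2
    exact e2
  have h4 := Finset.sum_le_sum h1
  have h5 := Finset.sum_le_sum h2
  rw [Finset.sum_add_distrib, ← Finset.mul_sum, ← Finset.mul_sum, ← Finset.sum_mul,
    ← Finset.sum_mul] at h4
  rw [Finset.sum_add_distrib, ← Finset.mul_sum, ← Finset.mul_sum, ← Finset.sum_mul, h3,
    ← Finset.sum_mul] at h5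
  linarith

variable (G : SimpleGraph V) [DecidableRel G.Adj] (hS : ∀ u, S u ⊆ G.neighborFinset u)
  (hQ3 : ∀ u ∈ Q, (S u).card = 3) (hN : ∀ u, u ∉ Q → S u = G.neighborFinset u)
  (h2 : ∀ u, u ∉ Q → (S u).card = 2) (hq : ∀ u, u ∉ Q → (S u \ Q).card ≤ 1)

theorem card_add (u : V) : ((S u ∩ Q).card : ℝ) + ((S u \ Q).card : ℝ) = ((S u).card : ℝ) := by
  exact_mod_cast Finset.card_inter_add_card_sdiff (S u) Q

include ha hb hc hQ3 h2 in
theorem RW_le' {κh κD : ℝ} (hκh : 0 < κh) (hκ : κh ≤ κD) (hκ2 : κD * b ^ 2 ≤ κh * a ^ 2) :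
    2 * RW (zz Q S a b c) ≤ κh⁻¹ * (Q.card : ℝ) + κD⁻¹ * (Qᶜ.card : ℝ) +
      3 * κD * c ^ 2 * (c ^ 2 * (∑ u ∈ Q, ((S u ∩ Q).card : ℝ)) +
        a ^ 2 * ∑ u ∈ Qᶜ, ((S u ∩ Q).card : ℝ)) +
      2 * κh * a ^ 2 * (c ^ 2 * (∑ u ∈ Q, ((S u \ Q).card : ℝ)) +
        b ^ 2 * ∑ u ∈ Qᶜ, ((S u \ Q).card : ℝ)) := by
  have hz := zz_nonneg (Q := Q) (S := S) ha hb hc
  have hκD : 0 < κD := hκh.trans_le hκ
  have h := RW_le hz (κ := fun w => if w ∈ Q then κh else κD)
    (fun w => by split_ifs <;> assumption)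
  have e1 : ∑ w, (if w ∈ Q then κh else κD)⁻¹ =
      κh⁻¹ * (Q.card : ℝ) + κD⁻¹ * (Qᶜ.card : ℝ) := by
    rw [sum_split (Q := Q)]
    congr 1
    · rw [Finset.sum_congr rfl fun w hw => by rw [if_pos hw], Finset.sum_const, nsmul_eq_mul,
        mul_comm]
    · rw [Finset.sum_congr rfl fun w hw => by rw [if_neg (Finset.mem_compl.1 hw)],
        Finset.sum_const, nsmul_eq_mul, mul_comm]
  have e2 : ∀ v, ∑ w, (if w ∈ Q then κh else κD) * zz Q S a b c w v ^ 2 =
      κh * (((S v ∩ Q).card : ℝ) * (if v ∈ Q then c else a) ^ 2) +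
      κD * (((S v \ Q).card : ℝ) * (if v ∈ Q then c else b) ^ 2) := by
    intro v
    rw [sum_split (Q := Q), ← sumQ (b := b) (fun x => x ^ 2) (by norm_num) v,
      ← sumD (a := a) (fun x => x ^ 2) (by norm_num) v, Finset.mul_sum, Finset.mul_sum]
    congr 1
    · exact Finset.sum_congr rfl fun w hw => by rw [if_pos hw]
    · exact Finset.sum_congr rfl fun w hw => by rw [if_neg (Finset.mem_compl.1 hw)]
  have e3 : ∑ v, BB (zz Q S a b c) v * ∑ w, (if w ∈ Q then κh else κD) * zz Q S a b c w v ^ 2 ≤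
      3 * κD * c ^ 2 * (∑ v ∈ Q, BB (zz Q S a b c) v) +
      2 * κh * a ^ 2 * (∑ v ∈ Qᶜ, BB (zz Q S a b c) v) := by
    rw [sum_split (Q := Q), Finset.mul_sum, Finset.mul_sum]
    refine add_le_add (Finset.sum_le_sum fun v hv => ?_) (Finset.sum_le_sum fun v hv => ?_)
    · rw [e2 v, if_pos hv, if_pos hv, mul_comm]
      refine mul_le_mul_of_nonneg_right ?_ (BB_nonneg _ v)
      have h4 := card_add (Q := Q) (S := S) v
      rw [hQ3 v hv] at h4
      have h5 : (0 : ℝ) ≤ ((S v ∩ Q).card : ℝ) := Nat.cast_nonneg _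
      have h6 : κh * ((S v ∩ Q).card : ℝ) ≤ κD * ((S v ∩ Q).card : ℝ) :=
        mul_le_mul_of_nonneg_right hκ h5
      push_cast at h4
      calc κh * (((S v ∩ Q).card : ℝ) * c ^ 2) + κD * (((S v \ Q).card : ℝ) * c ^ 2)
          = (κh * ((S v ∩ Q).card : ℝ) + κD * ((S v \ Q).card : ℝ)) * c ^ 2 := by ring
        _ ≤ (κD * ((S v ∩ Q).card : ℝ) + κD * ((S v \ Q).card : ℝ)) * c ^ 2 :=
            mul_le_mul_of_nonneg_right (by linarith) (sq_nonneg _)
        _ = κD * (((S v ∩ Q).card : ℝ) + ((S v \ Q).card : ℝ)) * c ^ 2 := by ring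
        _ = 3 * κD * c ^ 2 := by rw [h4]; ring
    · have hv' := Finset.mem_compl.1 hv
      rw [e2 v, if_neg hv', if_neg hv', mul_comm]
      refine mul_le_mul_of_nonneg_right ?_ (BB_nonneg _ v)
      have h4 := card_add (Q := Q) (S := S) v
      rw [h2 v hv'] at h4
      push_cast at h4
      have h5 : (0 : ℝ) ≤ ((S v \ Q).card : ℝ) := Nat.cast_nonneg _
      calc κh * (((S v ∩ Q).card : ℝ) * a ^ 2) + κD * (((S v \ Q).card : ℝ) * b ^ 2)
          = κh * a ^ 2 * ((S v ∩ Q).card : ℝ) + (κD * b ^ 2) * ((S v \ Q).card : ℝ) := by ring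
        _ ≤ κh * a ^ 2 * ((S v ∩ Q).card : ℝ) + (κh * a ^ 2) * ((S v \ Q).card : ℝ) := by
            have := mul_le_mul_of_nonneg_right hκ2 h5
            linarith
        _ = κh * a ^ 2 * (((S v ∩ Q).card : ℝ) + ((S v \ Q).card : ℝ)) := by ring
        _ = 2 * κh * a ^ 2 := by rw [h4]; ring
  have e4 : ∑ v ∈ Q, BB (zz Q S a b c) v = c ^ 2 * (∑ u ∈ Q, ((S u ∩ Q).card : ℝ)) +
      a ^ 2 * ∑ u ∈ Qᶜ, ((S u ∩ Q).card : ℝ) :=
    totQ (fun x => x ^ 2) (by norm_num)
  have e5 : ∑ v ∈ Qᶜ, BB (zz Q S a b c) v = c ^ 2 * (∑ u ∈ Q, ((S u \ Q).card : ℝ)) +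
      b ^ 2 * ∑ u ∈ Qᶜ, ((S u \ Q).card : ℝ) :=
    totD (fun x => x ^ 2) (by norm_num)
  rw [e1] at h
  rw [e4, e5] at e3
  linarith

/-- An upper bound for the number of common choices of the two neighbours of `u`. -/
noncomputable def delta (Q : Finset V) (S : V → Finset V) (u : V) : ℝ :=
  ∑ g ∈ Q, ((S g ∩ Q).card : ℝ) * ∑ y ∈ S g \ Q, (if u ∈ S y then 1 else 0)

theorem delta_nonneg (u : V) : 0 ≤ delta Q S u :=
  Finset.sum_nonneg fun g _ => mul_nonneg (Nat.cast_nonneg _)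
    (Finset.sum_nonneg fun y _ => by split_ifs <;> norm_num)

include hQ3 hq in
theorem sum_delta_le : ∑ u ∈ Qᶜ, delta Q S u ≤ 2 * ∑ u ∈ Q, ((S u ∩ Q).card : ℝ) := by
  unfold delta
  rw [Finset.sum_comm, Finset.mul_sum]
  refine Finset.sum_le_sum fun g hg => ?_
  rw [← Finset.mul_sum, Finset.sum_comm]
  have h1 : ∑ y ∈ S g \ Q, ∑ u ∈ Qᶜ, (if u ∈ S y then (1 : ℝ) else 0) ≤
      ((S g \ Q).card : ℝ) := by
    calc ∑ y ∈ S g \ Q, ∑ u ∈ Qᶜ, (if u ∈ S y then (1 : ℝ) else 0) ≤
          ∑ y ∈ S g \ Q, (1 : ℝ) := by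
          refine Finset.sum_le_sum fun y hy => ?_
          rw [← Finset.sum_filter, Finset.sum_const, nsmul_eq_mul, mul_one]
          have h3 : (Qᶜ.filter fun u => u ∈ S y) = S y \ Q := by
            ext u
            simp [and_comm]
          rw [h3]
          exact_mod_cast hq y (Finset.mem_sdiff.1 hy).2
      _ = _ := by simp
  rcases Nat.eq_zero_or_pos (S g ∩ Q).card with h0 | h0
  · rw [h0]; simp
  · have h3 : (S g \ Q).card ≤ 2 := by
      have := Finset.card_inter_add_card_sdiff (S g) Q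
      rw [hQ3 g hg] at this
      omega
    have h3' : ((S g \ Q).card : ℝ) ≤ 2 := by exact_mod_cast h3
    calc _ ≤ ((S g ∩ Q).card : ℝ) * 2 :=
          mul_le_mul_of_nonneg_left (h1.trans h3') (Nat.cast_nonneg _)
      _ = _ := mul_comm _ _

include ha hb hc hS hN hq in
/-- The contribution of the choices of a vertex of degree `2` with exactly one neighbour in
`Q`. -/
theorem part_special {s : ℝ} (hs : 0 < s) (has : a * s ≤ 2) {u : V} (hu : u ∉ Q)
    (hpu : (S u ∩ Q).card = 1) (hqu : (S u \ Q).card = 1) :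
    part (zz Q S a b c) u ≤ a ^ 2 + b ^ 2 + a ^ 2 * b * s +
      b * s⁻¹ * (∑ v ∈ Q, zz Q S a b c v u ^ 2 * (BB (zz Q S a b c) v)⁻¹) +
      (2 * a * b - a ^ 2 * b * s) * delta Q S u := by
  have hz := zz_nonneg (Q := Q) (S := S) ha hb hc
  obtain ⟨x, hx⟩ := Finset.card_eq_one.1 hpu
  obtain ⟨y, hy⟩ := Finset.card_eq_one.1 hqu
  have hxS : x ∈ S u ∧ x ∈ Q := by
    have : x ∈ S u ∩ Q := by rw [hx]; exact Finset.mem_singleton_self x
    exact Finset.mem_inter.1 this
  have hyS : y ∈ S u ∧ y ∉ Q := by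
    have : y ∈ S u \ Q := by rw [hy]; exact Finset.mem_singleton_self y
    exact Finset.mem_sdiff.1 this
  have hxy : x ≠ y := fun h => hyS.2 (h ▸ hxS.2)
  have zx : zz Q S a b c x u = a := by
    unfold zz wt
    rw [if_pos hxS.1, if_neg hu, if_pos hxS.2]
  have zy : zz Q S a b c y u = b := by
    unfold zz wt
    rw [if_pos hyS.1, if_neg hu, if_neg hyS.2]
  have zall : ∀ v, zz Q S a b c v u = (if v = x then a else 0) + (if v = y then b else 0) := by
    intro v
    by_cases h1 : v = x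
    · rw [h1, zx, if_pos rfl, if_neg hxy, add_zero]
    · by_cases h2 : v = y
      · rw [h2, zy, if_neg hxy.symm, if_pos rfl, zero_add]
      · rw [if_neg h1, if_neg h2, add_zero]
        unfold zz
        rw [if_neg]
        intro hv
        by_cases h3 : v ∈ Q
        · exact h1 (Finset.mem_singleton.1 (hx ▸ Finset.mem_inter.2 ⟨hv, h3⟩))
        · exact h2 (Finset.mem_singleton.1 (hy ▸ Finset.mem_sdiff.2 ⟨hv, h3⟩))
  have hpart : part (zz Q S a b c) u = a ^ 2 * rho (zz Q S a b c) x x +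
      b ^ 2 * rho (zz Q S a b c) y y + 2 * a * b * rho (zz Q S a b c) x y := by
    unfold part
    have h1 : ∀ v w, rho (zz Q S a b c) v w * (zz Q S a b c v u * zz Q S a b c w u) =
        (if v = x then (if w = x then a ^ 2 * rho (zz Q S a b c) x x else 0) else 0) +
        (if v = y then (if w = y then b ^ 2 * rho (zz Q S a b c) y y else 0) else 0) +
        (if v = x then (if w = y then a * b * rho (zz Q S a b c) x y else 0) else 0) +
        (if v = y then (if w = x then a * b * rho (zz Q S a b c) x y else 0) else 0) := by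
      intro v w
      rw [zall v, zall w]
      by_cases h1 : v = x
      · by_cases h2 : w = x
        · subst h1; subst h2
          simp only [if_true, if_neg hxy]
          ring
        · by_cases h3 : w = y
          · subst h1; subst h3
            simp only [if_true, if_neg hxy, if_neg hxy.symm]
            ring
          · simp only [if_neg h2, if_neg h3]
            simp
      · by_cases h1' : v = y
        · by_cases h2 : w = x
          · subst h1'; subst h2
            simp only [if_true, if_neg hxy, if_neg hxy.symm]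
            rw [rho_comm]
            ring
          · by_cases h3 : w = y
            · subst h1'; subst h3
              simp only [if_true, if_neg hxy.symm]
              ring
            · simp only [if_neg h2, if_neg h3]
              simp
        · simp only [if_neg h1, if_neg h1']
          simp
    simp only [h1, Finset.sum_add_distrib]
    have h3 : ∀ (x y : V) (r : ℝ), ∑ v : V, ∑ w : V, (if v = x then (if w = y then r else 0) else 0)
        = r := by
      intro x y r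
      have : ∀ v : V, ∑ w : V, (if v = x then (if w = y then r else 0) else 0) =
          if v = x then r else 0 := by
        intro v
        split_ifs
        · simp
        · simp
      simp only [this]
      simp
    rw [h3, h3, h3, h3]
    ring
  rw [hpart]
  have r1 := rho_le_one (z := zz Q S a b c) x x
  have r2 := rho_le_one (z := zz Q S a b c) y y
  have r3 := rho_le_one (z := zz Q S a b c) x y
  have hd0 := delta_nonneg (Q := Q) (S := S) u
  have hB0 : ∀ v, 0 ≤ (BB (zz Q S a b c) v)⁻¹ := fun v => inv_nonneg.2 (BB_nonneg _ v)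
  have hsum0 : 0 ≤ ∑ v ∈ Q, zz Q S a b c v u ^ 2 * (BB (zz Q S a b c) v)⁻¹ :=
    Finset.sum_nonneg fun v _ => mul_nonneg (sq_nonneg _) (hB0 v)
  have hcoef : 0 ≤ 2 * a * b - a ^ 2 * b * s := by
    have : 0 ≤ a * b * (2 - a * s) := mul_nonneg (by positivity) (by linarith)
    calc 0 ≤ a * b * (2 - a * s) := this
      _ = _ := by ring
  have hsi : 0 < s⁻¹ := inv_pos.2 hs
  have q1 : a ^ 2 * rho (zz Q S a b c) x x ≤ a ^ 2 := mul_le_of_le_one_right (sq_nonneg _) r1
  have q2 : b ^ 2 * rho (zz Q S a b c) y y ≤ b ^ 2 := mul_le_of_le_one_right (sq_nonneg _) r2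
  by_cases hex : ∃ t, t ≠ u ∧ zz Q S a b c x t * zz Q S a b c y t ≠ 0
  · obtain ⟨t, htu, ht⟩ := hex
    have hxt : x ∈ S t := by
      by_contra h
      apply ht
      rw [zz, if_neg h, zero_mul]
    have hyt : y ∈ S t := by
      by_contra h
      apply ht
      rw [mul_comm, zz, if_neg h, zero_mul]
    have huy : u ∈ S y := by
      rw [hN y hyS.2, SimpleGraph.mem_neighborFinset]
      have := hS u hyS.1
      rw [SimpleGraph.mem_neighborFinset] at this
      exact this.symm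
    have hty : t ∈ S y := by
      rw [hN y hyS.2, SimpleGraph.mem_neighborFinset]
      have := hS t hyt
      rw [SimpleGraph.mem_neighborFinset] at this
      exact this.symm
    have htQ : t ∈ Q := by
      by_contra h
      have h1 : ({t, u} : Finset V) ⊆ S y \ Q := by
        intro v hv
        rw [Finset.mem_insert, Finset.mem_singleton] at hv
        rcases hv with rfl | rfl
        · exact Finset.mem_sdiff.2 ⟨hty, h⟩
        · exact Finset.mem_sdiff.2 ⟨huy, hu⟩
      have h3 := Finset.card_le_card h1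
      rw [Finset.card_pair htu] at h3
      have := hq y hyS.2
      omega
    have hd1 : 1 ≤ delta Q S u := by
      have h1 : ((S t ∩ Q).card : ℝ) * ∑ y ∈ S t \ Q, (if u ∈ S y then 1 else 0) ≤
          delta Q S u :=
        Finset.single_le_sum (f := fun g => ((S g ∩ Q).card : ℝ) *
          ∑ y ∈ S g \ Q, (if u ∈ S y then (1 : ℝ) else 0))
          (fun g _ => mul_nonneg (Nat.cast_nonneg _)
            (Finset.sum_nonneg fun y _ => by split_ifs <;> norm_num)) htQ
      have h3 : (1 : ℝ) ≤ ((S t ∩ Q).card : ℝ) := by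
        exact_mod_cast Finset.card_pos.2 ⟨x, Finset.mem_inter.2 ⟨hxt, hxS.2⟩⟩
      have h4 : (1 : ℝ) ≤ ∑ y ∈ S t \ Q, (if u ∈ S y then (1 : ℝ) else 0) := by
        calc (1 : ℝ) = if u ∈ S y then (1 : ℝ) else 0 := by rw [if_pos huy]
          _ ≤ _ := Finset.single_le_sum (f := fun y => if u ∈ S y then (1 : ℝ) else 0)
            (fun y _ => by split_ifs <;> norm_num) (Finset.mem_sdiff.2 ⟨hyt, hyS.2⟩)
      nlinarith
    have q3 : 2 * a * b * rho (zz Q S a b c) x y ≤ 2 * a * b :=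
      mul_le_of_le_one_right (by positivity) r3
    have q4 : (2 * a * b - a ^ 2 * b * s) * 1 ≤ (2 * a * b - a ^ 2 * b * s) * delta Q S u :=
      mul_le_mul_of_nonneg_left hd1 hcoef
    have q5 : 0 ≤ b * s⁻¹ * (∑ v ∈ Q, zz Q S a b c v u ^ 2 * (BB (zz Q S a b c) v)⁻¹) :=
      mul_nonneg (by positivity) hsum0
    linarith
  · push Not at hex
    have hDW : DW (zz Q S a b c) x y = a * b := by
      unfold DW
      rw [Finset.sum_eq_single u, zx, zy]
      · intro t _ ht
        exact hex t ht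
      · intro h
        exact absurd (Finset.mem_univ u) h
    have hBy : b ^ 2 ≤ BB (zz Q S a b c) y := by
      calc b ^ 2 = zz Q S a b c y u ^ 2 := by rw [zy]
        _ ≤ _ := Finset.single_le_sum (f := fun t => zz Q S a b c y t ^ 2)
          (fun t _ => sq_nonneg _) (Finset.mem_univ u)
    have hsy : b ≤ √(BB (zz Q S a b c) y) := Real.le_sqrt_of_sq_le hBy
    have hiy : (√(BB (zz Q S a b c) y))⁻¹ ≤ b⁻¹ := inv_anti₀ hb hsy
    have hix : 0 ≤ (√(BB (zz Q S a b c) x))⁻¹ := by positivity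
    have hrho : b * rho (zz Q S a b c) x y ≤ a * b * (√(BB (zz Q S a b c) x))⁻¹ := by
      unfold rho
      rw [hDW]
      calc b * ((√(BB (zz Q S a b c) x))⁻¹ * (√(BB (zz Q S a b c) y))⁻¹ * (a * b)) =
            (a * b * b * (√(BB (zz Q S a b c) x))⁻¹) * (√(BB (zz Q S a b c) y))⁻¹ := by ring
        _ ≤ (a * b * b * (√(BB (zz Q S a b c) x))⁻¹) * b⁻¹ :=
            mul_le_mul_of_nonneg_left hiy (by positivity)
        _ = a * b * (√(BB (zz Q S a b c) x))⁻¹ * (b * b⁻¹) := by ring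
        _ = _ := by rw [mul_inv_cancel₀ hb.ne', mul_one]
    have hAG : 2 * (√(BB (zz Q S a b c) x))⁻¹ ≤ s + s⁻¹ * (√(BB (zz Q S a b c) x))⁻¹ ^ 2 := by
      have h4 : s * s⁻¹ = 1 := mul_inv_cancel₀ hs.ne'
      have h3 : s + s⁻¹ * (√(BB (zz Q S a b c) x))⁻¹ ^ 2 - 2 * (√(BB (zz Q S a b c) x))⁻¹ =
          s * (1 - s⁻¹ * (√(BB (zz Q S a b c) x))⁻¹) ^ 2 := by
        have h5 : s * (1 - s⁻¹ * (√(BB (zz Q S a b c) x))⁻¹) ^ 2 =
            s - 2 * (s * s⁻¹) * (√(BB (zz Q S a b c) x))⁻¹ +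
              (s * s⁻¹) * s⁻¹ * (√(BB (zz Q S a b c) x))⁻¹ ^ 2 := by ring
        rw [h5, h4]
        ring
      have h6 : 0 ≤ s * (1 - s⁻¹ * (√(BB (zz Q S a b c) x))⁻¹) ^ 2 :=
        mul_nonneg hs.le (sq_nonneg _)
      linarith
    have hinv : (√(BB (zz Q S a b c) x))⁻¹ ^ 2 = (BB (zz Q S a b c) x)⁻¹ := by
      rw [inv_pow, Real.sq_sqrt (BB_nonneg _ x)]
    rw [hinv] at hAG
    have hone : a ^ 2 * (BB (zz Q S a b c) x)⁻¹ ≤
        ∑ v ∈ Q, zz Q S a b c v u ^ 2 * (BB (zz Q S a b c) v)⁻¹ := by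
      calc a ^ 2 * (BB (zz Q S a b c) x)⁻¹ = zz Q S a b c x u ^ 2 * (BB (zz Q S a b c) x)⁻¹ := by
            rw [zx]
        _ ≤ _ := Finset.single_le_sum
            (f := fun v => zz Q S a b c v u ^ 2 * (BB (zz Q S a b c) v)⁻¹)
            (fun v _ => mul_nonneg (sq_nonneg _) (hB0 v)) hxS.2
    have q3 : 2 * a * b * rho (zz Q S a b c) x y ≤
        a ^ 2 * b * s + b * s⁻¹ * (a ^ 2 * (BB (zz Q S a b c) x)⁻¹) := by
      calc 2 * a * b * rho (zz Q S a b c) x y = 2 * a * (b * rho (zz Q S a b c) x y) := by ring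
        _ ≤ 2 * a * (a * b * (√(BB (zz Q S a b c) x))⁻¹) :=
            mul_le_mul_of_nonneg_left hrho (by positivity)
        _ = a ^ 2 * b * (2 * (√(BB (zz Q S a b c) x))⁻¹) := by ring
        _ ≤ a ^ 2 * b * (s + s⁻¹ * (BB (zz Q S a b c) x)⁻¹) :=
            mul_le_mul_of_nonneg_left hAG (by positivity)
        _ = _ := by ring
    have q4 : b * s⁻¹ * (a ^ 2 * (BB (zz Q S a b c) x)⁻¹) ≤
        b * s⁻¹ * ∑ v ∈ Q, zz Q S a b c v u ^ 2 * (BB (zz Q S a b c) v)⁻¹ :=
      mul_le_mul_of_nonneg_left hone (by positivity)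
    have q5 : 0 ≤ (2 * a * b - a ^ 2 * b * s) * delta Q S u := mul_nonneg hcoef hd0
    linarith

include ha hb hc hS hQ3 hN h2 hq in
theorem ZT_le {s : ℝ} (hs : 0 < s) (has : a * s ≤ 2) :
    ZT (zz Q S a b c) ≤ 9 * c ^ 2 * (Q.card : ℝ) +
      4 * a ^ 2 * ((Qᶜ.card : ℝ) - ∑ u ∈ Qᶜ, ((S u \ Q).card : ℝ)) +
      (a ^ 2 + b ^ 2 + a ^ 2 * b * s) * (∑ u ∈ Qᶜ, ((S u \ Q).card : ℝ)) +
      b * s⁻¹ * (Q.card : ℝ) +
      (2 * a * b - a ^ 2 * b * s) * (2 * ∑ u ∈ Q, ((S u ∩ Q).card : ℝ)) := by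
  have hz := zz_nonneg (Q := Q) (S := S) ha hb hc
  have hcoef : 0 ≤ 2 * a * b - a ^ 2 * b * s := by
    have : 0 ≤ a * b * (2 - a * s) := mul_nonneg (by positivity) (by linarith)
    calc 0 ≤ a * b * (2 - a * s) := this
      _ = _ := by ring
  have hsi : 0 < s⁻¹ := inv_pos.2 hs
  have hB0 : ∀ v, 0 ≤ (BB (zz Q S a b c) v)⁻¹ := fun v => inv_nonneg.2 (BB_nonneg _ v)
  rw [ZT_eq, sum_split (Q := Q)]
  have h1 : ∑ u ∈ Q, part (zz Q S a b c) u ≤ 9 * c ^ 2 * (Q.card : ℝ) := by
    calc ∑ u ∈ Q, part (zz Q S a b c) u ≤ ∑ u ∈ Q, 9 * c ^ 2 := by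
          refine Finset.sum_le_sum fun u hu => (part_le hz u).trans (le_of_eq ?_)
          have e1 := sumQ (Q := Q) (S := S) (a := a) (b := b) (c := c) (fun x => x) rfl u
          have e2 := sumD (Q := Q) (S := S) (a := a) (b := b) (c := c) (fun x => x) rfl u
          simp only [if_pos hu] at e1 e2
          rw [sum_split (Q := Q), e1, e2]
          have h4 := card_add (Q := Q) (S := S) u
          rw [hQ3 u hu] at h4
          push_cast at h4
          rw [← add_mul, h4]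
          ring
      _ = _ := by rw [Finset.sum_const, nsmul_eq_mul, mul_comm]
  have h3 : ∀ u ∈ Qᶜ, part (zz Q S a b c) u ≤ 4 * a ^ 2 * (1 - ((S u \ Q).card : ℝ)) +
      (a ^ 2 + b ^ 2 + a ^ 2 * b * s) * ((S u \ Q).card : ℝ) +
      b * s⁻¹ * (∑ v ∈ Q, zz Q S a b c v u ^ 2 * (BB (zz Q S a b c) v)⁻¹) +
      (2 * a * b - a ^ 2 * b * s) * delta Q S u := by
    intro u hu
    have hu' := Finset.mem_compl.1 hu
    have hcard := Finset.card_inter_add_card_sdiff (S u) Q
    rw [h2 u hu'] at hcard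
    have hqu := hq u hu'
    have hsum0 : 0 ≤ ∑ v ∈ Q, zz Q S a b c v u ^ 2 * (BB (zz Q S a b c) v)⁻¹ :=
      Finset.sum_nonneg fun v _ => mul_nonneg (sq_nonneg _) (hB0 v)
    rcases Nat.eq_zero_or_pos (S u \ Q).card with h0 | h0
    · have hp : (S u ∩ Q).card = 2 := by omega
      have e1 := sumQ (Q := Q) (S := S) (a := a) (b := b) (c := c) (fun x => x) rfl u
      have e2 := sumD (Q := Q) (S := S) (a := a) (b := b) (c := c) (fun x => x) rfl u
      simp only [if_neg hu'] at e1 e2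
      rw [hp] at e1
      rw [h0] at e2
      have h5 := part_le hz u
      rw [sum_split (Q := Q), e1, e2] at h5
      rw [h0]
      have q5 : 0 ≤ (2 * a * b - a ^ 2 * b * s) * delta Q S u :=
        mul_nonneg hcoef (delta_nonneg u)
      have q6 : 0 ≤ b * s⁻¹ * (∑ v ∈ Q, zz Q S a b c v u ^ 2 * (BB (zz Q S a b c) v)⁻¹) :=
        mul_nonneg (by positivity) hsum0
      push_cast at h5 ⊢
      nlinarith
    · have hq1 : (S u \ Q).card = 1 := by omega
      have hp1 : (S u ∩ Q).card = 1 := by omega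
      have h5 := part_special ha hb hc G hS hN hq hs has hu' hp1 hq1
      rw [hq1]
      push_cast
      linarith
  have h4 := Finset.sum_le_sum h3
  rw [Finset.sum_add_distrib, Finset.sum_add_distrib, Finset.sum_add_distrib, ← Finset.mul_sum,
    ← Finset.mul_sum, ← Finset.mul_sum, ← Finset.mul_sum, Finset.sum_sub_distrib] at h4
  have h5 : ∑ u ∈ Qᶜ, ∑ v ∈ Q, zz Q S a b c v u ^ 2 * (BB (zz Q S a b c) v)⁻¹ ≤
      (Q.card : ℝ) := by
    rw [Finset.sum_comm]
    calc ∑ v ∈ Q, ∑ u ∈ Qᶜ, zz Q S a b c v u ^ 2 * (BB (zz Q S a b c) v)⁻¹ ≤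
          ∑ v ∈ Q, (1 : ℝ) := by
          refine Finset.sum_le_sum fun v _ => ?_
          rw [← Finset.sum_mul]
          have h6 : ∑ u ∈ Qᶜ, zz Q S a b c v u ^ 2 ≤ BB (zz Q S a b c) v :=
            Finset.sum_le_sum_of_subset_of_nonneg (Finset.subset_univ _)
              fun t _ _ => sq_nonneg _
          calc _ ≤ BB (zz Q S a b c) v * (BB (zz Q S a b c) v)⁻¹ :=
                mul_le_mul_of_nonneg_right h6 (hB0 v)
            _ ≤ 1 := mul_inv_le_one
      _ = _ := by simp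
  have h6 : b * s⁻¹ * ∑ u ∈ Qᶜ, ∑ v ∈ Q, zz Q S a b c v u ^ 2 * (BB (zz Q S a b c) v)⁻¹ ≤
      b * s⁻¹ * (Q.card : ℝ) := mul_le_mul_of_nonneg_left h5 (by positivity)
  have h7 : (2 * a * b - a ^ 2 * b * s) * ∑ u ∈ Qᶜ, delta Q S u ≤
      (2 * a * b - a ^ 2 * b * s) * (2 * ∑ u ∈ Q, ((S u ∩ Q).card : ℝ)) :=
    mul_le_mul_of_nonneg_left (sum_delta_le hQ3 hq) hcoef
  simp only [Finset.sum_const, nsmul_eq_mul, mul_one] at h4
  linarith

end threads

/-- Graphs of minimum degree at least `2` in which every vertex of degree `2` has a neighbour of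
degree at least `3`. -/
theorem threads (G : SimpleGraph V) [DecidableRel G.Adj] (hd2 : ∀ v, 2 ≤ G.degree v)
    (hnb : ∀ u, G.degree u = 2 → ∃ v, G.Adj u v ∧ 3 ≤ G.degree v) :
    1011 / 1000 * (Fintype.card V : ℝ) ≤ posSquareEnergy G := by
  set Q : Finset V := Finset.univ.filter fun v => 3 ≤ G.degree v with hQ
  have hmem : ∀ v, v ∈ Q ↔ 3 ≤ G.degree v := fun v => by simp [hQ]
  have h1 : ∀ u, ∃ C : Finset V, C ⊆ G.neighborFinset u ∧ C.card = min 3 (G.degree u) := fun u =>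
    Finset.exists_subset_card_eq (by
      rw [SimpleGraph.card_neighborFinset_eq_degree]; exact min_le_right _ _)
  choose S hS hcard using h1
  have hdeg : ∀ u, u ∉ Q → G.degree u = 2 := by
    intro u hu
    have h3 : ¬ 3 ≤ G.degree u := fun h => hu ((hmem u).2 h)
    have := hd2 u
    omega
  have hQ3 : ∀ u ∈ Q, (S u).card = 3 := fun u hu => by
    rw [hcard u, min_eq_left ((hmem u).1 hu)]
  have h2 : ∀ u, u ∉ Q → (S u).card = 2 := fun u hu => by
    rw [hcard u, hdeg u hu]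
    rfl
  have hN : ∀ u, u ∉ Q → S u = G.neighborFinset u := fun u hu =>
    Finset.eq_of_subset_of_card_le (hS u) (by
      rw [SimpleGraph.card_neighborFinset_eq_degree, hdeg u hu, h2 u hu])
  have hq : ∀ u, u ∉ Q → (S u \ Q).card ≤ 1 := by
    intro u hu
    obtain ⟨v, huv, hv⟩ := hnb u (hdeg u hu)
    have h4 := Finset.card_inter_add_card_sdiff (S u) Q
    rw [h2 u hu] at h4
    have h5 : 0 < (S u ∩ Q).card := Finset.card_pos.2 ⟨v, Finset.mem_inter.2
      ⟨by rw [hN u hu, SimpleGraph.mem_neighborFinset]; exact huv, (hmem v).2 hv⟩⟩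
    omega
  have ha : (0 : ℝ) < 97 / 500 := by norm_num
  have hb : (0 : ℝ) < 19 / 100 := by norm_num
  have hc : (0 : ℝ) < 79 / 500 := by norm_num
  have hz := zz_nonneg (Q := Q) (S := S) ha hb hc
  have hadj : ∀ v t, zz Q S (97 / 500) (19 / 100) (79 / 500) v t ≠ 0 → G.Adj v t := by
    intro v t h
    have hv : v ∈ S t := by
      by_contra h3
      apply h
      rw [zz, if_neg h3]
    have := hS t hv
    rw [SimpleGraph.mem_neighborFinset] at this
    exact this.symm
  have hζ : ∀ v t, zz Q S (97 / 500) (19 / 100) (79 / 500) v t ≤ 97 / 500 := by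
    intro v t
    refine (zz_le_wt ha hb hc v t).trans ?_
    unfold wt
    split_ifs <;> norm_num
  have hW := weighted G hz hadj (lam := 247 / 200) (ζ := 97 / 500) (by norm_num) hζ (by norm_num)
  have hR := RW_le' (Q := Q) (S := S) ha hb hc hQ3 h2 (κh := 13) (κD := 27 / 2)
    (by norm_num) (by norm_num) (by norm_num)
  have hM := MW_le (Q := Q) (S := S) ha hb hc
  have hT := ZT_le (Q := Q) (S := S) ha hb hc G hS hQ3 hN h2 hq (s := 11 / 2) (by norm_num)
    (by norm_num)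
  have t1 := totQ (Q := Q) (S := S) (a := 97 / 500) (b := 19 / 100) (c := 79 / 500)
    (fun x => x) rfl
  have t2 := totD (Q := Q) (S := S) (a := 97 / 500) (b := 19 / 100) (c := 79 / 500)
    (fun x => x) rfl
  have t3 := totQ (Q := Q) (S := S) (a := 97 / 500) (b := 19 / 100) (c := 79 / 500)
    (fun x => x ^ 2) (by norm_num)
  have t4 := totD (Q := Q) (S := S) (a := 97 / 500) (b := 19 / 100) (c := 79 / 500)
    (fun x => x ^ 2) (by norm_num)
  set z := zz Q S (97 / 500 : ℝ) (19 / 100) (79 / 500) with hzdef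
  have u1 : ∑ v, ∑ t, z v t = ∑ v ∈ Q, ∑ t, z v t + ∑ v ∈ Qᶜ, ∑ t, z v t := sum_split _
  have u2 : ∑ v, BB z v = ∑ v ∈ Q, ∑ t, z v t ^ 2 + ∑ v ∈ Qᶜ, ∑ t, z v t ^ 2 := sum_split _
  rw [u1, u2, t1, t2, t3, t4] at hW
  set X0 : ℝ := ∑ u ∈ Q, ((S u ∩ Q).card : ℝ) with hX0
  set XD : ℝ := ∑ u ∈ Q, ((S u \ Q).card : ℝ) with hXD
  set PD : ℝ := ∑ u ∈ Qᶜ, ((S u ∩ Q).card : ℝ) with hPD
  set RD : ℝ := ∑ u ∈ Qᶜ, ((S u \ Q).card : ℝ) with hRD
  have k1 : X0 + XD = 3 * (Q.card : ℝ) := by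
    rw [hX0, hXD, ← Finset.sum_add_distrib]
    calc ∑ u ∈ Q, (((S u ∩ Q).card : ℝ) + ((S u \ Q).card : ℝ)) = ∑ u ∈ Q, (3 : ℝ) := by
          refine Finset.sum_congr rfl fun u hu => ?_
          rw [card_add, hQ3 u hu]
          norm_num
      _ = _ := by rw [Finset.sum_const, nsmul_eq_mul, mul_comm]
  have k2 : PD + RD = 2 * (Qᶜ.card : ℝ) := by
    rw [hPD, hRD, ← Finset.sum_add_distrib]
    calc ∑ u ∈ Qᶜ, (((S u ∩ Q).card : ℝ) + ((S u \ Q).card : ℝ)) = ∑ u ∈ Qᶜ, (2 : ℝ) := by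
          refine Finset.sum_congr rfl fun u hu => ?_
          rw [card_add, h2 u (Finset.mem_compl.1 hu)]
          norm_num
      _ = _ := by rw [Finset.sum_const, nsmul_eq_mul, mul_comm]
  have k3 : RD ≤ (Qᶜ.card : ℝ) := by
    calc RD ≤ ∑ u ∈ Qᶜ, (1 : ℝ) := Finset.sum_le_sum fun u hu => by
          exact_mod_cast hq u (Finset.mem_compl.1 hu)
      _ = _ := by simp
  have k4 : 0 ≤ RD := Finset.sum_nonneg fun u _ => Nat.cast_nonneg _
  have k5 : 0 ≤ XD := Finset.sum_nonneg fun u _ => Nat.cast_nonneg _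
  have k6 : 0 ≤ X0 := Finset.sum_nonneg fun u _ => Nat.cast_nonneg _
  have k7 : XD ≤ PD := by
    have e1 : ∀ g, ((S g \ Q).card : ℝ) = ∑ u ∈ Qᶜ, if u ∈ S g then (1 : ℝ) else 0 := by
      intro g
      rw [← Finset.sum_filter, Finset.sum_const, nsmul_eq_mul, mul_one]
      congr 2
      ext u
      simp [and_comm]
    have e2 : ∀ u, ((S u ∩ Q).card : ℝ) = ∑ g ∈ Q, if g ∈ S u then (1 : ℝ) else 0 := by
      intro g
      rw [← Finset.sum_filter, Finset.sum_const, nsmul_eq_mul, mul_one]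
      congr 2
      ext u
      simp [and_comm]
    rw [hXD, hPD]
    simp only [e1, e2]
    rw [Finset.sum_comm]
    refine Finset.sum_le_sum fun u hu => Finset.sum_le_sum fun g hg => ?_
    by_cases h : u ∈ S g
    · have h5 : g ∈ S u := by
        rw [hN u (Finset.mem_compl.1 hu), SimpleGraph.mem_neighborFinset]
        have := hS g h
        rw [SimpleGraph.mem_neighborFinset] at this
        exact this.symm
      rw [if_pos h, if_pos h5]
    · rw [if_neg h]
      split_ifs <;> norm_num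
  have k8 : (Fintype.card V : ℝ) = (Q.card : ℝ) + (Qᶜ.card : ℝ) := by
    exact_mod_cast (Finset.card_add_card_compl Q).symm
  rw [k8]
  have k9 : (0 : ℝ) ≤ (Q.card : ℝ) := Nat.cast_nonneg _
  have k10 : (0 : ℝ) ≤ (Qᶜ.card : ℝ) := Nat.cast_nonneg _
  norm_num at hW hR hM hT ⊢
  linarith

/-- Let `G` be a finite simple graph with `n` vertices and positive square energy `s⁺`, the sum of
the squares of the positive eigenvalues of the adjacency matrix.

(1) Let every vertex `u` choose a set `C u` of neighbours. Let `M` be the number of choices, `M'`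
the number of choices which are mutual, `J = ∑ |C u| ^ 2`, `L` the number of pairs of a choice of
`v` by `u` and a choice made by `v`, and `N` the number of vertices which are chosen. Then
`2 M ^ 2 ≤ (M + M' + √(M J) + √(L N)) s⁺`.

(2) If all degrees are at least `t`, then `2 t n ≤ (3 + √t) s⁺`.

(3) For every set `Q` of vertices and every natural number `t`, twice the sum of the numbers
`min t |N(v) ∩ Q|` over the vertices `v` outside `Q` is at most `(1 + √t) s⁺`.

(4) If `n > 0`, all degrees are at least `1`, and the average of the numbers `min 3 (deg v)` is at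
least `24 / 10`, then `s⁺ > n`.

(5) If `n > 0`, all degrees are at least `2`, and the average of the numbers `min 3 (deg v)` is at
least `47 / 20`, then `s⁺ > n`.

(6) If all degrees are at least `2` and every vertex of degree `2` has a neighbour of degree at
least `3`, then `s⁺ ≥ 1.011 n`. -/
theorem result (G : SimpleGraph V) [DecidableRel G.Adj] :
    (∀ C : V → Finset V, (∀ u, C u ⊆ G.neighborFinset u) →
      2 * (∑ u, ((C u).card : ℝ)) ^ 2 ≤
        ((∑ u, ((C u).card : ℝ)) + ∑ u, (((C u).filter fun v => u ∈ C v).card : ℝ) +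
          √((∑ u, ((C u).card : ℝ)) * ∑ u, ((C u).card : ℝ) ^ 2) +
          √((∑ u, ∑ v ∈ C u, ((C v).card : ℝ)) * ((Finset.univ.biUnion C).card : ℝ))) *
        posSquareEnergy G) ∧
    (∀ t : ℕ, (∀ v, t ≤ G.degree v) →
      2 * t * (Fintype.card V : ℝ) ≤ (3 + √t) * posSquareEnergy G) ∧
    (∀ (t : ℕ) (Q : Finset V),
      2 * ∑ v ∈ Qᶜ, ((min t (G.neighborFinset v ∩ Q).card : ℕ) : ℝ) ≤
        (1 + √t) * posSquareEnergy G) ∧
    (0 < Fintype.card V → (∀ v, 1 ≤ G.degree v) →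
      24 * Fintype.card V ≤ 10 * ∑ v, min 3 (G.degree v) →
      (Fintype.card V : ℝ) < posSquareEnergy G) ∧
    (0 < Fintype.card V → (∀ v, 2 ≤ G.degree v) →
      47 * Fintype.card V ≤ 20 * ∑ v, min 3 (G.degree v) →
      (Fintype.card V : ℝ) < posSquareEnergy G) ∧
    ((∀ v, 2 ≤ G.degree v) → (∀ u, G.degree u = 2 → ∃ v, G.Adj u v ∧ 3 ≤ G.degree v) →
      1011 / 1000 * (Fintype.card V : ℝ) ≤ posSquareEnergy G) :=
  ⟨sets G, minDegree G, cut G, leaves G, noLeaves G, threads G⟩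

end Pool.Agent.Results.MP_3b2d6a_co.MinDegreeThree
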