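import Pool.Agent.Lib.MP_3b2d6a_co.Cw

/-!
# The positive square energy of graphs without cycles of length 1 mod 4

Let `B` be the subgraph of all edges of `G` between the two classes of a colouring, `A_B` its
adjacency matrix and `m_B` its number of edges. The positive part `P = (A_B + |A_B|) / 2` is a
positive semidefinite test matrix with `‖P‖ ^ 2 = m_B` and `tr (A P) = m_B + ∑ |A_B| u v`, the sum
over the edges `u v` of `G` outside `B`. If all paths of `B` from `u` to `v` have length `2` modulo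
`4`, then the entry `|A_B| u v` is nonnegative: `|A_B| u v` is `-2/π` times the integral of
`s ^ 2 ((s ^ 2 + A_B ^ 2)⁻¹) u v`, and the pivot formula gives the sign of these entries. Hence
`s⁺(G) ≥ m_B` if `G` has no cycle of length `1` modulo `4`.

If all cycles of `G` are odd (of length `3` modulo `4`), let `B` consist of all edges at one vertex
of an odd cycle and of the edges between two colour classes of the other vertices. Then
`det (s + i A_B)` lies in the quadrant `Re > 0`, `Im ≤ 0`, so `s⁺(B)` is larger than the number of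
edges of `B`, and again `s⁺(G) ≥ s⁺(B)` by the path expansion of `(s + i A_B)⁻¹`.
-/

set_option autoImplicit false
set_option linter.unusedSectionVars false

open Finset

namespace Pool.Agent.Results.MP_3b2d6a_co.NoOneModFour

open Pool.Agent.MP3b2d6a (cutGraph cutGraph_le)

variable {V : Type*}

theorem isHermitian_adj (G : SimpleGraph V) [DecidableRel G.Adj] :
    (G.adjMatrix ℝ).IsHermitian := by
  rw [Matrix.IsHermitian, Matrix.conjTranspose_eq_transpose_of_trivial]
  exact G.isSymm_adjMatrix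

variable [Fintype V] [DecidableEq V]

/-- The eigenvalues of the adjacency matrix of `G` (with multiplicities). -/
noncomputable def eig (G : SimpleGraph V) [DecidableRel G.Adj] (i : V) : ℝ :=
  (isHermitian_adj G).eigenvalues i

/-- The positive square energy `s⁺(G)`: the sum of the squares of the positive eigenvalues of the
adjacency matrix of `G`. -/
noncomputable def posSquareEnergy (G : SimpleGraph V) [DecidableRel G.Adj] : ℝ :=
  ∑ i with 0 < eig G i, eig G i ^ 2

/-- The negative square energy `s⁻(G)`: the sum of the squares of the negative eigenvalues of the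
adjacency matrix of `G`. -/
noncomputable def negSquareEnergy (G : SimpleGraph V) [DecidableRel G.Adj] : ℝ :=
  ∑ i with eig G i < 0, eig G i ^ 2

/-- `s⁺` for `τ = 1`, `s⁻` for `τ = -1`. -/
noncomputable def sq (G : SimpleGraph V) [DecidableRel G.Adj] (τ : ℝ) : ℝ :=
  ∑ i with 0 < τ * eig G i, eig G i ^ 2

variable (G : SimpleGraph V) [DecidableRel G.Adj]

theorem sq_pos : sq G 1 = posSquareEnergy G := by
  unfold sq posSquareEnergy
  simp only [one_mul]

theorem sq_neg : sq G (-1) = negSquareEnergy G := by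
  unfold sq negSquareEnergy
  have h : ∀ i, (0 < -1 * eig G i) ↔ (eig G i < 0) := fun i => by
    constructor <;> intro h <;> linarith
  simp only [h]

/-- The number of edges as a real number. -/
theorem card_edges (B : SimpleGraph V) [DecidableRel B.Adj] :
    (B.edgeFinset.card : ℝ) = (B.edgeSet.ncard : ℝ) := by
  rw [← SimpleGraph.coe_edgeFinset, Set.ncard_coe_finset]

theorem exists_bool {B : SimpleGraph V} (hB : B.IsBipartite) :
    ∃ c : V → Bool, ∀ u v, B.Adj u v → c u ≠ c v := by
  obtain ⟨C⟩ := hB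
  refine ⟨fun v => decide (C v = 0), fun u v huv => ?_⟩
  have h1 : C u ≠ C v := C.valid huv
  change decide (C u = 0) ≠ decide (C v = 0)
  generalize C u = a at h1
  generalize C v = b at h1
  revert h1
  revert a b
  decide

theorem le_cut {G B : SimpleGraph V} (hBG : B ≤ G) (hB : B.IsBipartite) :
    ∃ c : V → Bool, B ≤ cutGraph G c := by
  obtain ⟨c, hc⟩ := exists_bool hB
  exact ⟨c, fun u v huv => ⟨hBG huv, hc u v huv⟩⟩

theorem sq_bip {τ : ℝ} (hτ : τ = 1 ∨ τ = -1) (hG : G.IsBipartite) :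
    sq G τ = (G.edgeSet.ncard : ℝ) := by
  obtain ⟨c, hc⟩ := exists_bool hG
  have hA := isHermitian_adj G
  have h1 : ∑ i, eig G i * |eig G i| = 0 := by
    refine Pool.Agent.MP3b2d6a.sum_abs (isHermitian_adj G) c fun s t hst => ?_
    rw [SimpleGraph.adjMatrix_apply]
    exact if_neg fun h => hc s t h hst
  obtain ⟨U, u1, u2, u3⟩ := Pool.Agent.MP3b2d6a.spec_decomp (isHermitian_adj G)
  have h2 : ∑ i, eig G i ^ 2 = 2 * (G.edgeFinset.card : ℝ) := by
    have h3 := Pool.Agent.MP3b2d6a.sum_sq u2 u3 G.isSymm_adjMatrix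
    change ∑ i, eig G i ^ 2 = _ at h3
    rw [h3]
    have h4 : ∀ s t, (G.adjMatrix ℝ) s t ^ 2 = if G.Adj s t then 1 else 0 := fun s t => by
      rw [SimpleGraph.adjMatrix_apply]
      split_ifs <;> norm_num
    have h5 := G.sum_degrees_eq_twice_card_edges
    have h6 : ∀ s, ∑ t, (if G.Adj s t then (1 : ℝ) else 0) = (G.degree s : ℝ) := by
      intro s
      rw [← SimpleGraph.card_neighborFinset_eq_degree, SimpleGraph.neighborFinset_eq_filter]
      simp
    simp only [h4, h6]
    exact_mod_cast h5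
  have h3 : ∀ i, (if 0 < τ * eig G i then eig G i ^ 2 else 0) =
      (eig G i ^ 2 + τ * (eig G i * |eig G i|)) / 2 := by
    intro i
    rcases hτ with rfl | rfl
    · split_ifs with h
      · rw [one_mul] at h
        rw [abs_of_pos h]
        ring
      · rw [one_mul] at h
        rw [abs_of_nonpos (not_lt.1 h)]
        ring
    · split_ifs with h
      · rw [abs_of_neg (by linarith)]
        ring
      · rw [abs_of_nonneg (by linarith)]
        ring
  unfold sq
  rw [Finset.sum_filter, Finset.sum_congr rfl fun i _ => h3 i, ← Finset.sum_div,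
    Finset.sum_add_distrib, ← Finset.mul_sum, h1, h2, card_edges]
  ring

theorem cut_le {τ : ℝ} (hτ : τ * τ = 1) (c : V → Bool)
    (h : ∀ u v, G.Adj u v → c u = c v → ∀ k,
      Pool.Agent.MP3b2d6a.PathIn (cutGraph G c).Adj Finset.univ u v k →
        Pool.Agent.MP3b2d6a.eps (c u) k = -τ) :
    ((cutGraph G c).edgeSet.ncard : ℝ) ≤ sq G τ ∧
    ((cutGraph G c).Connected → ¬ G.IsBipartite → ((cutGraph G c).edgeSet.ncard : ℝ) < sq G τ) := by
  obtain ⟨U, h1, h2, h3⟩ := Pool.Agent.MP3b2d6a.spec_decomp (isHermitian_adj G)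
  obtain ⟨T, hT1, hT2, hT3⟩ := Pool.Agent.MP3b2d6a.cut_main c hτ h1 h2 h3 h
  rw [card_edges] at hT1 hT2 hT3
  change T ^ 2 ≤ sq G τ * _ at hT2
  obtain ⟨m, hm⟩ : ∃ m : ℝ, m = ((cutGraph G c).edgeSet.ncard : ℝ) := ⟨_, rfl⟩
  have hm0 : 0 ≤ m := by rw [hm]; exact Nat.cast_nonneg _
  have hs0 : 0 ≤ sq G τ := Finset.sum_nonneg fun i _ => sq_nonneg _
  rw [← hm] at hT1 hT2 hT3 ⊢
  have hlt : m < T → m < sq G τ := by
    intro hlt
    by_contra hcon
    push Not at hcon
    nlinarith
  constructor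
  · rcases hm0.eq_or_lt with h0 | h0
    · rw [← h0]
      exact hs0
    · by_contra hcon
      push Not at hcon
      nlinarith
  · intro hconn hcol
    refine hlt (hT3 ?_)
    by_contra hcon
    apply hcol
    have hval : ∀ {u v : V}, G.Adj u v → c u ≠ c v := by
      intro u v huv hcuv
      exact hcon ⟨u, v, huv, hcuv,
        Pool.Agent.MP3b2d6a.exists_pathIn (hconn.preconnected u v)⟩
    exact (SimpleGraph.Coloring.mk c hval).colorable

/-- the hypothesis on the cycles -/
def Hyp (G : SimpleGraph V) (τ : ℝ) : Prop :=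
  ∀ (c : V → Bool) (u v : V), G.Adj u v → c u = c v → ∀ k,
    Pool.Agent.MP3b2d6a.PathIn (cutGraph G c).Adj Finset.univ u v k →
      Pool.Agent.MP3b2d6a.eps (c u) k = -τ

theorem hyp_pos {G : SimpleGraph V}
    (h : ∀ (v : V) (p : G.Walk v v), p.IsCycle → p.length % 4 ≠ 1) : Hyp G 1 := by
  intro c u v huv hc k hk
  have h1 := (Pool.Agent.MP3b2d6a.parity hk).1 hc
  obtain ⟨p, hp, hl⟩ := Pool.Agent.MP3b2d6a.exists_cycle huv hc hk
  have h2 := h v p hp
  rw [hl] at h2
  rw [Pool.Agent.MP3b2d6a.eps_of_mod _ (by omega)]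

theorem hyp_neg {G : SimpleGraph V}
    (h : ∀ (v : V) (p : G.Walk v v), p.IsCycle → p.length % 4 ≠ 3) : Hyp G (-1) := by
  intro c u v huv hc k hk
  have h1 := (Pool.Agent.MP3b2d6a.parity hk).1 hc
  obtain ⟨p, hp, hl⟩ := Pool.Agent.MP3b2d6a.exists_cycle huv hc hk
  have h2 := h v p hp
  rw [hl] at h2
  rw [Pool.Agent.MP3b2d6a.eps_zero_mod _ (by omega)]
  norm_num

omit [DecidableRel G.Adj] in
theorem ncard_mono {B B' : SimpleGraph V} (h : B ≤ B') : B.edgeSet.ncard ≤ B'.edgeSet.ncard :=
  Set.ncard_le_ncard (SimpleGraph.edgeSet_mono h) (Set.toFinite _)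

theorem main {τ : ℝ} (hτ : τ = 1 ∨ τ = -1) (h : Hyp G τ)
    (hcyc : (τ = 1 ∧ ∀ (v : V) (p : G.Walk v v), p.IsCycle → p.length % 4 ≠ 1) ∨
      (τ = -1 ∧ ∀ (v : V) (p : G.Walk v v), p.IsCycle → p.length % 4 ≠ 3)) :
    (∀ B : SimpleGraph V, B ≤ G → B.IsBipartite → (B.edgeSet.ncard : ℝ) ≤ sq G τ) ∧
    (G.Connected →
      (¬ G.IsBipartite → ∀ B : SimpleGraph V, B ≤ G → B.IsBipartite →
        (B.edgeSet.ncard : ℝ) < sq G τ) ∧
      (Fintype.card V : ℝ) - 1 ≤ sq G τ ∧
      (sq G τ = (Fintype.card V : ℝ) - 1 ↔ G.IsTree) ∧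
      (¬ G.IsTree → (Fintype.card V : ℝ) ≤ sq G τ) ∧
      (sq G τ = Fintype.card V ↔ G.IsBipartite ∧ G.edgeSet.ncard = Fintype.card V)) := by
  have hττ : τ * τ = 1 := by rcases hτ with rfl | rfl <;> norm_num
  refine ⟨fun B hBG hB => ?_, fun hG => ?_⟩
  · obtain ⟨c, hc⟩ := le_cut hBG hB
    have h3 := ncard_mono hc
    exact le_trans (by exact_mod_cast h3) (cut_le G hττ c (h c)).1
  have h2 : ¬ G.IsBipartite → ∀ B : SimpleGraph V, B ≤ G → B.IsBipartite →
      (B.edgeSet.ncard : ℝ) < sq G τ := by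
    intro hbip B hBG hB
    obtain ⟨c, hc, hmax⟩ := Pool.Agent.MP3b2d6a.exists_cut_conn hG
    obtain ⟨c1, hc1⟩ := le_cut hBG hB
    have h3 : B.edgeSet.ncard ≤ (cutGraph G c).edgeSet.ncard := (ncard_mono hc1).trans (hmax c1)
    exact lt_of_le_of_lt (by exact_mod_cast h3) ((cut_le G hττ c (h c)).2 hc hbip)
  have htree : G.IsTree → sq G τ = (Fintype.card V : ℝ) - 1 ∧
      G.edgeSet.ncard + 1 = Fintype.card V := by
    intro ht
    have h5 := (SimpleGraph.isTree_iff_connected_and_card.1 ht).2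
    rw [Nat.card_eq_fintype_card (α := V), Nat.card_coe_set_eq] at h5
    have h6 : (G.edgeSet.ncard : ℝ) + 1 = Fintype.card V := by exact_mod_cast h5
    rw [sq_bip G hτ ht.2.colorable_two]
    exact ⟨by linarith, h5⟩
  have hbiptree : G.IsBipartite → (Fintype.card V : ℝ) - 1 ≤ sq G τ ∧
      (sq G τ = (Fintype.card V : ℝ) - 1 → G.IsTree) := by
    intro hbip
    rw [sq_bip G hτ hbip]
    have h3 := hG.card_vert_le_card_edgeSet_add_one
    rw [Nat.card_eq_fintype_card, Nat.card_coe_set_eq] at h3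
    have h4 : (Fintype.card V : ℝ) ≤ (G.edgeSet.ncard : ℝ) + 1 := by exact_mod_cast h3
    refine ⟨by linarith, fun h5 => ?_⟩
    rw [SimpleGraph.isTree_iff_connected_and_card, Nat.card_eq_fintype_card (α := V),
      Nat.card_coe_set_eq]
    refine ⟨hG, ?_⟩
    have h6 : (G.edgeSet.ncard : ℝ) + 1 = Fintype.card V := by linarith
    exact_mod_cast h6
  have hnb : ¬ G.IsBipartite → (Fintype.card V : ℝ) - 1 < sq G τ := by
    intro hbip
    obtain ⟨c, hc, -⟩ := Pool.Agent.MP3b2d6a.exists_cut_conn hG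
    have h3 := hc.card_vert_le_card_edgeSet_add_one
    rw [Nat.card_eq_fintype_card, Nat.card_coe_set_eq] at h3
    have h4 : (Fintype.card V : ℝ) ≤ ((cutGraph G c).edgeSet.ncard : ℝ) + 1 := by
      exact_mod_cast h3
    have h5 := (cut_le G hττ c (h c)).2 hc hbip
    linarith
  have hmain : (¬ G.IsTree → (Fintype.card V : ℝ) ≤ sq G τ) ∧
      (sq G τ = Fintype.card V ↔ G.IsBipartite ∧ G.edgeSet.ncard = Fintype.card V) := by
    by_cases heven : ∃ (v : V) (p : G.Walk v v), p.IsCycle ∧ p.length % 2 = 0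
    · obtain ⟨v, p, hp, he⟩ := heven
      obtain ⟨c, hc, hcard⟩ := Pool.Agent.MP3b2d6a.exists_cut_cycle hG p hp he
      rw [Nat.card_coe_set_eq] at hcard
      have h3 : (Fintype.card V : ℝ) ≤ ((cutGraph G c).edgeSet.ncard : ℝ) := by
        exact_mod_cast hcard
      have h4 := cut_le G hττ c (h c)
      refine ⟨fun _ => h3.trans h4.1, ?_⟩
      by_cases hbip : G.IsBipartite
      · rw [sq_bip G hτ hbip]
        exact ⟨fun h5 => ⟨hbip, by exact_mod_cast h5⟩, fun h5 => by exact_mod_cast h5.2⟩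
      · have h5 := h4.2 hc hbip
        exact ⟨fun h6 => by linarith, fun h6 => absurd h6.1 hbip⟩
    · by_cases hex : ∃ (v : V) (p : G.Walk v v), p.IsCycle
      · -- all cycles are odd
        obtain ⟨U, h1, h2, h3⟩ := Pool.Agent.MP3b2d6a.spec_decomp (isHermitian_adj G)
        have hodd : ∀ (v : V) (p : G.Walk v v), p.IsCycle → p.length % 2 = 1 := by
          intro v p hp
          by_contra hcon
          exact heven ⟨v, p, hp, by omega⟩
        have h4 := Pool.Agent.MP3b2d6a.odd_case hG (τ := τ) ?_ hex h1 h2 h3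
        · change (Fintype.card V : ℝ) < sq G τ at h4
          refine ⟨fun _ => h4.le, fun h5 => ?_, fun h5 => ?_⟩
          · exact absurd h5 h4.ne'
          · rw [sq_bip G hτ h5.1, h5.2] at h4
            exact absurd h4 (lt_irrefl _)
        · rcases hcyc with ⟨e, h5⟩ | ⟨e, h5⟩
          · refine Or.inl ⟨e, fun v p hp => ?_⟩
            have h6 := hodd v p hp
            have h7 := h5 v p hp
            omega
          · refine Or.inr ⟨e, fun v p hp => ?_⟩
            have h6 := hodd v p hp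
            have h7 := h5 v p hp
            omega
      · -- a tree
        have ht : G.IsTree := ⟨hG, fun v p hp => hex ⟨v, p, hp⟩⟩
        obtain ⟨h5, h6⟩ := htree ht
        refine ⟨fun h7 => absurd ht h7, fun h7 => ?_, fun h7 => ?_⟩
        · rw [h5] at h7
          linarith
        · omega
  refine ⟨h2, ?_, ⟨fun h5 => ?_, fun h5 => (htree h5).1⟩, hmain.1, hmain.2⟩
  · by_cases hbip : G.IsBipartite
    · exact (hbiptree hbip).1
    · exact (hnb hbip).le
  · by_cases hbip : G.IsBipartite
    · exact (hbiptree hbip).2 h5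
    · exact absurd h5 (hnb hbip).ne'

/-- Let `G` be a graph without cycles of length `1` modulo `4`. Then `s⁺(G)` is at least the number
of edges of every bipartite subgraph. Let moreover `G` be connected, with `n` vertices. Then this
inequality is strict if `G` is not bipartite; `s⁺(G) ≥ n - 1`, with equality if and only if `G` is a
tree; otherwise `s⁺(G) ≥ n`; and `s⁺(G) = n` if and only if `G` is bipartite and has exactly `n`
edges. The same holds for `s⁻(G)` if `G` has no cycle of length `3` modulo `4`. -/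
theorem result (G : SimpleGraph V) [DecidableRel G.Adj] :
    ((∀ (v : V) (p : G.Walk v v), p.IsCycle → p.length % 4 ≠ 1) →
      (∀ B : SimpleGraph V, B ≤ G → B.IsBipartite →
        (B.edgeSet.ncard : ℝ) ≤ posSquareEnergy G) ∧
      (G.Connected →
        (¬ G.IsBipartite → ∀ B : SimpleGraph V, B ≤ G → B.IsBipartite →
          (B.edgeSet.ncard : ℝ) < posSquareEnergy G) ∧
        (Fintype.card V : ℝ) - 1 ≤ posSquareEnergy G ∧
        (posSquareEnergy G = (Fintype.card V : ℝ) - 1 ↔ G.IsTree) ∧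
        (¬ G.IsTree → (Fintype.card V : ℝ) ≤ posSquareEnergy G) ∧
        (posSquareEnergy G = Fintype.card V ↔
          G.IsBipartite ∧ G.edgeSet.ncard = Fintype.card V))) ∧
    ((∀ (v : V) (p : G.Walk v v), p.IsCycle → p.length % 4 ≠ 3) →
      (∀ B : SimpleGraph V, B ≤ G → B.IsBipartite →
        (B.edgeSet.ncard : ℝ) ≤ negSquareEnergy G) ∧
      (G.Connected →
        (¬ G.IsBipartite → ∀ B : SimpleGraph V, B ≤ G → B.IsBipartite →
          (B.edgeSet.ncard : ℝ) < negSquareEnergy G) ∧
        (Fintype.card V : ℝ) - 1 ≤ negSquareEnergy G ∧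
        (negSquareEnergy G = (Fintype.card V : ℝ) - 1 ↔ G.IsTree) ∧
        (¬ G.IsTree → (Fintype.card V : ℝ) ≤ negSquareEnergy G) ∧
        (negSquareEnergy G = Fintype.card V ↔
          G.IsBipartite ∧ G.edgeSet.ncard = Fintype.card V))) := by
  refine ⟨fun h => ?_, fun h => ?_⟩
  · have := main G (Or.inl rfl) (hyp_pos h) (Or.inl ⟨rfl, h⟩)
    rwa [sq_pos] at this
  · have := main G (Or.inr rfl) (hyp_neg h) (Or.inr ⟨rfl, h⟩)
    rwa [sq_neg] at this

end Pool.Agent.Results.MP_3b2d6a_co.NoOneModFour
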