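import Pool.Agent.Lib.MP_3b2d6a_co.SE5b
import Pool.Agent.Lib.MP_3b2d6a_co.Growth

/-!
# Connected graphs whose positive square energy equals the order

Let `G` be a connected graph with `n` vertices and `m` edges and let `s⁺(G)` be the sum of the
squares of the positive eigenvalues of its adjacency matrix. We prove that `s⁺(G) = n` if and only if
`G` is bipartite with exactly `n` edges, and that `s⁺(G) > n` if `m > n`.

The proof studies the phase `T(G, x) = ∑ arctan (λ / x)`, the argument of `det (x + i A)`, `x > 0`;
`m - s⁺ = (2 / π) ∫ x T(x) dx`. It is subadditive when two graphs are glued at a vertex; deleting a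
vertex of maximum degree `d` lowers it by at most an explicit function of `d` and `x`, of small
integral if `d ≤ 300`; and deleting a vertex of large degree lowers `m - s⁺` by at most
`∫ |λ| / (x² + λ²)` against the spectral measure of its neighbourhood.
-/

set_option autoImplicit false
set_option linter.unusedSectionVars false

open Finset

namespace Pool.Agent.Results.MP_3b2d6a_co.Unicyclic

open Pool.Agent.MP3b2d6a (Col T TT AW AW_herm ed dg Inv Cls)

theorem isHermitian_adj {U : Type*} (G : SimpleGraph U) [DecidableRel G.Adj] :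
    (G.adjMatrix ℝ).IsHermitian := by
  rw [Matrix.IsHermitian, Matrix.conjTranspose_eq_transpose_of_trivial]
  exact G.isSymm_adjMatrix

/-- The eigenvalues of the adjacency matrix of `G` (with multiplicities). -/
noncomputable def eig {U : Type*} [Fintype U] [DecidableEq U] (G : SimpleGraph U)
    [DecidableRel G.Adj] (i : U) : ℝ :=
  (isHermitian_adj G).eigenvalues i

/-- The positive square energy `s⁺(G)`: the sum of the squares of the positive eigenvalues of the
adjacency matrix of `G`. -/
noncomputable def posSquareEnergy {U : Type*} [Fintype U] [DecidableEq U] (G : SimpleGraph U)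
    [DecidableRel G.Adj] : ℝ :=
  ∑ i with 0 < eig G i, eig G i ^ 2

variable {V : Type*} [Fintype V] [DecidableEq V]

section

variable (G : SimpleGraph V) [DecidableRel G.Adj]

theorem sum_eig : ∑ i, eig G i = 0 := by
  have h := (isHermitian_adj G).trace_eq_sum_eigenvalues
  rw [SimpleGraph.trace_adjMatrix] at h
  exact h.symm

theorem sum_eig_sq : ∑ i, eig G i ^ 2 = 2 * (G.edgeFinset.card : ℝ) := by
  have hA := isHermitian_adj G
  have h1 := hA.spectral_theorem
  have h2 : (G.adjMatrix ℝ) ^ 2 = (hA.eigenvectorUnitary : Matrix V V ℝ) *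
      (Matrix.diagonal (fun i => hA.eigenvalues i ^ 2)) *
      (star (hA.eigenvectorUnitary : Matrix V V ℝ)) := by
    conv_lhs => rw [h1]
    rw [← map_pow, Matrix.diagonal_pow, Unitary.conjStarAlgAut_apply]
    rfl
  have h3 : ((G.adjMatrix ℝ) ^ 2).trace = ∑ i, eig G i ^ 2 := by
    rw [h2, Matrix.trace_mul_cycle, Unitary.coe_star_mul_self, Matrix.one_mul,
      Matrix.trace_diagonal]
    rfl
  have h4 : ((G.adjMatrix ℝ) ^ 2).trace = 2 * (G.edgeFinset.card : ℝ) := by
    rw [sq, Matrix.trace]
    simp only [Matrix.diag_apply, SimpleGraph.adjMatrix_mul_self_apply_self]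
    exact_mod_cast G.sum_degrees_eq_twice_card_edges
  rw [← h3, h4]

theorem energy_eq :
    posSquareEnergy G = (G.edgeFinset.card : ℝ) + (∑ i, eig G i * |eig G i|) / 2 := by
  have h1 : ∀ i, (if 0 < eig G i then eig G i ^ 2 else 0) =
      (eig G i ^ 2 + eig G i * |eig G i|) / 2 := by
    intro i
    split_ifs with h
    · rw [abs_of_pos h]
      ring
    · rw [abs_of_nonpos (not_lt.1 h)]
      ring
  unfold posSquareEnergy
  rw [Finset.sum_filter, Finset.sum_congr rfl fun i _ => h1 i, ← Finset.sum_div,
    Finset.sum_add_distrib, sum_eig_sq]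
  ring

omit [Fintype V] [DecidableEq V] in
theorem AW_univ : AW G Set.univ = G.adjMatrix ℝ := by
  ext u v
  unfold AW
  rw [SimpleGraph.adjMatrix_apply]
  by_cases h : G.Adj u v
  · rw [if_pos ⟨trivial, trivial, h⟩, if_pos h]
  · rw [if_neg fun h' => h h'.2.2, if_neg h]

end

/-- A connected vertex set with at most as many edges as vertices is in the class. -/
theorem cls_of_le {G : SimpleGraph V} {W : Set V} (hc : (G.induce W).Connected)
    (h : ed G W ≤ W.ncard) : Cls G W := by
  intro U hU h76 u hu
  exfalso
  have hg := Pool.Agent.MP3b2d6a.growth hc ⟨u, hu⟩ hU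
  have h1 := Pool.Agent.MP3b2d6a.ed_dg (G := G) U
  classical
  have h2 : (76 : ℝ) * U.ncard ≤ ∑ u, (if u ∈ U then (dg G U u : ℝ) else 0) := by
    have h3 : (U.ncard : ℝ) = ∑ u, (if u ∈ U then (1 : ℝ) else 0) := by
      rw [Finset.sum_boole, Set.ncard_eq_toFinset_card']
      congr 2
      ext v
      simp
    rw [h3, Finset.mul_sum]
    refine Finset.sum_le_sum fun v _ => ?_
    split_ifs with hv
    · have h4 : (76 : ℝ) ≤ dg G U v := by exact_mod_cast h76 v hv
      linarith
    · simp
  have h5 : (0 : ℝ) < U.ncard := by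
    have : 0 < U.ncard := (Set.ncard_pos (Set.toFinite _)).2 ⟨u, hu⟩
    exact_mod_cast this
  have h6 : ∑ u, (if u ∈ U then (dg G U u : ℝ) else 0) = 2 * ed G U := by
    rw [h1]
    ring_nf
  rw [h6] at h2
  linarith

/-- Let `G` be a connected graph with `n` vertices and `m` edges. Then `s⁺(G) = n` if and only if
`G` is bipartite and `m = n`, that is, bipartite and unicyclic; and `s⁺(G) > n` if `m > n`. -/
theorem result {V : Type*} [Fintype V] [DecidableEq V] (G : SimpleGraph V) [DecidableRel G.Adj]
    (hG : G.Connected) :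
    (posSquareEnergy G = Fintype.card V ↔
      G.Colorable 2 ∧ G.edgeFinset.card = Fintype.card V) ∧
    (Fintype.card V < G.edgeFinset.card → (Fintype.card V : ℝ) < posSquareEnergy G) := by
  have hc : (G.induce (Set.univ : Set V)).Connected := by
    rw [SimpleGraph.Iso.connected_iff (SimpleGraph.induceUnivIso G)]
    exact hG
  have hcard : (Set.univ : Set V).ncard = Fintype.card V := by
    rw [Set.ncard_univ, Nat.card_eq_fintype_card]
  have hed : ed G Set.univ = (G.edgeFinset.card : ℝ) := by
    rw [Pool.Agent.MP3b2d6a.ed_univ, Nat.card_eq_fintype_card, SimpleGraph.edgeFinset,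
      Set.toFinset_card]
  have hTT : ∀ x, T G Set.univ x = TT (G.adjMatrix ℝ) x := fun x => by
    rw [T, AW_univ]
  obtain ⟨n, hn⟩ : ∃ n : ℝ, n = Fintype.card V := ⟨_, rfl⟩
  obtain ⟨m, hm⟩ : ∃ m : ℝ, m = G.edgeFinset.card := ⟨_, rfl⟩
  -- more edges than vertices
  have hbig : Fintype.card V < G.edgeFinset.card → n < posSquareEnergy G := by
    intro h1
    have h2 : ((Set.univ : Set V).ncard : ℝ) + 1 ≤ ed G Set.univ := by
      rw [hcard, hed]
      exact_mod_cast h1
    have h3 := Pool.Agent.MP3b2d6a.main_conn hc h2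
    have h4 : ∀ (M : Matrix V V ℝ) (hM : M.IsHermitian) (e : M = G.adjMatrix ℝ),
        ∑ i, hM.eigenvalues i * |hM.eigenvalues i| = ∑ i, eig G i * |eig G i| := by
      intro M hM e
      subst e
      rfl
    rw [h4 _ _ (AW_univ G), hcard, hed, ← hn, ← hm] at h3
    rw [energy_eq, ← hm]
    linarith
  -- at most as many edges as vertices
  have hsmall : m ≤ n → ∃ k : ℕ, (k : ℝ) + n ≤ m + 1 ∧ Inv G k [] Set.univ := by
    intro h1
    obtain ⟨k, L, hI⟩ := Inv.conn _ _ rfl hc (cls_of_le hc (by
      rw [hcard, hed, ← hn, ← hm]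
      exact h1))
    have hge := hI.ge
    rw [hcard, hed, ← hn, ← hm] at hge
    have hk0 : (0 : ℝ) ≤ k := Nat.cast_nonneg k
    have hL : L = [] := by
      cases L with
      | nil => rfl
      | cons d L =>
        exfalso
        have h3 : (3 : ℝ) ≤ d := by exact_mod_cast hI.mem d List.mem_cons_self
        have h4 := Pool.Agent.MP3b2d6a.sumL_nonneg (L := L)
          fun e he => hI.mem e (List.mem_cons_of_mem _ he)
        rw [List.map_cons, List.sum_cons] at hge
        linarith
    subst hL
    rw [List.map_nil, List.sum_nil] at hge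
    exact ⟨k, by linarith, hI⟩
  have hcolE : Col G Set.univ → posSquareEnergy G = m := by
    intro hcol
    have h1 := Pool.Agent.MP3b2d6a.sum_eq (isHermitian_adj G) (sum_eig G)
      (fun x hx => by rw [← hTT]; exact hcol.T_eq_zero hx)
    change ∑ i, eig G i * |eig G i| = 0 at h1
    rw [energy_eq, h1, zero_div, add_zero, hm]
  have hle_of : ¬ Fintype.card V < G.edgeFinset.card → m ≤ n := by
    intro h
    rw [hm, hn]
    exact_mod_cast not_lt.1 h
  refine ⟨⟨?_, ?_⟩, fun h => hn ▸ hbig h⟩
  · intro hs
    rw [← hn] at hs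
    have hnot : ¬ Fintype.card V < G.edgeFinset.card := fun h => by
      have := hbig h
      linarith
    have hle' := hle_of hnot
    obtain ⟨k, hk, hI⟩ := hsmall hle'
    have hsgn := hI.sgn
    rw [hcard, hed, ← hn, ← hm] at hsgn
    rcases hsgn (by linarith) with hcol | ⟨hnm, σ, hσ, hsn, hsp⟩
    · have h1 := hcolE hcol
      refine ⟨?_, ?_⟩
      · obtain ⟨c, hc⟩ := hcol
        have c' : G.Coloring Bool := SimpleGraph.Coloring.mk c fun {u v} ha =>
          hc u trivial v trivial ha
        exact c'.colorable
      · have h2 : m = n := by linarith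
        rw [hm, hn] at h2
        exact_mod_cast h2
    · exfalso
      have h1 := Pool.Agent.MP3b2d6a.sum_ne (isHermitian_adj G) (sum_eig G) (σ := σ)
        (fun x hx => by rw [← hTT]; exact hsp x hx)
      change ∑ i, eig G i * |eig G i| ≠ 0 at h1
      rw [energy_eq, ← hm] at hs
      apply h1
      linarith
  · rintro ⟨⟨c⟩, hmn⟩
    have hcol : Col G Set.univ := by
      refine ⟨fun v => decide (c v = 0), fun u _ v _ ha => ?_⟩
      have h1 : c u ≠ c v := c.valid ha
      change decide (c u = 0) ≠ decide (c v = 0)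
      generalize c u = a at h1
      generalize c v = b at h1
      revert h1
      revert a b
      decide
    rw [hcolE hcol, hm, hmn]

end Pool.Agent.Results.MP_3b2d6a_co.Unicyclic
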